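import Pool.Agent.J4.H64.EK.Core

/-!
# The regulator vectors of `K_2` of an elliptic curve span the plane
-/

set_option autoImplicit false

open Filter Topology H4EP MeasureTheory Set

namespace Pool.Agent.J4.H64.EK

theorem countable_tors (L : PeriodPair) : (tors L).Countable := by
  have h : tors L ⊆ range (fun x : ℤ × ℤ × ℕ =>
      ((x.1 : ℂ) * L.ω₁ + (x.2.1 : ℂ) * L.ω₂) / (x.2.2 : ℂ)) := by
    rintro z ⟨N, hN, h1⟩
    rw [cl_eq_zero, PeriodPair.mem_lattice] at h1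
    obtain ⟨m, n, h2⟩ := h1
    refine ⟨(m, n, N), ?_⟩
    have hN0 : (N : ℂ) ≠ 0 := by exact_mod_cast hN.ne'
    simp only
    rw [h2]
    field_simp
  exact (countable_range _).mono h

/-- The lines through `p` in the directions of the periods do not meet `A`. -/
def Gen (L : PeriodPair) (A : Set ℂ) (p : ℂ) : Prop :=
  ∀ s : ℝ, p + s * L.ω₁ ∉ A ∧ p + s * L.ω₂ ∉ A

theorem ee_one (L : PeriodPair) : ee L (1, 0) = L.ω₁ := by simp [ee]
theorem ee_two (L : PeriodPair) : ee L (0, 1) = L.ω₂ := by simp [ee]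

theorem ae_gen (L : PeriodPair) : ∀ᵐ x ∂muT, Gen L (tors L) (ee L (rho x)) := by
  have h1 := ae_rho (ae_line L (countable_tors L) (1, 0))
  have h2 := ae_rho (ae_line L (countable_tors L) (0, 1))
  filter_upwards [h1, h2] with x hx1 hx2 s
  have h3 := hx1 s
  have h4 := hx2 s
  rw [ee_add, ee_smul, ee_one] at h3
  rw [ee_add, ee_smul, ee_two] at h4
  exact ⟨h3, h4⟩

/-- The translate of an element of `K_2` by a torsion point. -/
theorem KK.trS {L : PeriodPair} {ξ : Sym2K} (h : KK L ξ) {a : ℂ} (ha : IsTor L a) :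
    KK L (trS a ξ) := by
  refine ⟨h.1.trS a, fun z => by rw [tameS_trS, h.2.1], h.2.2.trS a fun z hz => ?_⟩
  have h1 : IsTor L (z - a + a) := IsTor.add hz ha
  rwa [sub_add_cancel] at h1

theorem annihilator (L : PeriodPair) {p : ℂ} {a b : ℝ}
    (h : ∀ ξ, KK L ξ → a * reg ξ p L.ω₁ + b * reg ξ p L.ω₂ = 0) (hab : a ≠ 0 ∨ b ≠ 0) :
    False := by
  have hw : (a : ℂ) * L.ω₁ + (b : ℂ) * L.ω₂ ≠ 0 := by
    intro h0
    have h1 := ee_inj L (a, b) h0
    rw [Prod.ext_iff] at h1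
    rcases hab with h2 | h2
    · exact h2 h1.1
    · exact h2 h1.2
  obtain ⟨ξ, hξ, harea⟩ := exists_KK L hw
  have hdense : Dense {z : ℂ | IsTor L (p - z)} := by
    have h1 := (dense_isTor (L := L)).preimage (f := fun z => p - z)
      (Homeomorph.subLeft p).isOpenMap
    exact h1
  have hzero : ∀ z : ℂ, IsTor L (p - z) → a * reg ξ z L.ω₁ + b * reg ξ z L.ω₂ = 0 := by
    intro z hz
    have h1 := h _ (hξ.trS hz)
    rw [reg_trS, reg_trS, sub_sub_cancel] at h1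
    exact h1
  have hgen : ∀ z : ℂ, Gen L (tors L) z → a * reg ξ z L.ω₁ + b * reg ξ z L.ω₂ = 0 := by
    intro z hz
    have hc : ContinuousAt (fun z => a * reg ξ z L.ω₁ + b * reg ξ z L.ω₂) z :=
      (continuousAt_const.mul (cont_reg hξ.1 hξ.2.2 fun s => (hz s).1)).add
        (continuousAt_const.mul (cont_reg hξ.1 hξ.2.2 fun s => (hz s).2))
    by_contra hne
    have h1 : ∀ᶠ x in 𝓝 z, a * reg ξ x L.ω₁ + b * reg ξ x L.ω₂ ≠ 0 := hc.eventually_ne hne
    obtain ⟨x, h2, h3⟩ := hdense.inter_nhds_nonempty h1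
    exact h3 (hzero x h2)
  obtain ⟨i1, e1⟩ := mean_reg hξ.1 L.ω₁
  obtain ⟨i2, e2⟩ := mean_reg hξ.1 L.ω₂
  have h1 : ∫ x, (a * reg ξ (ee L (rho x)) L.ω₁ + b * reg ξ (ee L (rho x)) L.ω₂) ∂muT = 0 := by
    rw [← integral_zero TT ℝ (μ := muT)]
    refine integral_congr_ae ?_
    filter_upwards [ae_gen L] with x hx
    exact hgen _ hx
  rw [integral_add (i1.const_mul a) (i2.const_mul b), integral_const_mul, integral_const_mul,
    e1, e2, area_lin hξ.1] at h1
  exact harea h1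

/-- Two independent vectors. -/
theorem exists_indep (L : PeriodPair) (p : ℂ) : ∃ ξ η, KK L ξ ∧ KK L η ∧
    reg ξ p L.ω₁ * reg η p L.ω₂ - reg ξ p L.ω₂ * reg η p L.ω₁ ≠ 0 := by
  by_contra hcon
  push Not at hcon
  -- some vector is not zero
  have h1 : ∃ ξ, KK L ξ ∧ (reg ξ p L.ω₁ ≠ 0 ∨ reg ξ p L.ω₂ ≠ 0) := by
    by_contra h
    push Not at h
    refine annihilator L (p := p) (a := 1) (b := 0) (fun ξ hξ => ?_) (Or.inl one_ne_zero)
    rw [(h ξ hξ).1]
    ring
  obtain ⟨ξ, hξ, hne⟩ := h1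
  refine annihilator L (p := p) (a := - reg ξ p L.ω₂) (b := reg ξ p L.ω₁) (fun η hη => ?_) ?_
  · have := hcon ξ η hξ hη
    linarith
  · rcases hne with h | h
    · exact Or.inr h
    · exact Or.inl (neg_ne_zero.2 h)

/-- Density for the elliptic curve itself. -/
theorem dense_KK (L : PeriodPair) (p : ℂ) (x y : ℝ) {ε : ℝ} (hε : 0 < ε) :
    ∃ (D : ℕ) (ξ : Sym2K), 0 < D ∧ KK L ξ ∧
      |reg ξ p L.ω₁ / D - x| < ε ∧ |reg ξ p L.ω₂ / D - y| < ε := by
  obtain ⟨ξ, η, hξ, hη, hdet⟩ := exists_indep L p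
  set a := reg ξ p L.ω₁ with ha
  set b := reg ξ p L.ω₂ with hb
  set c := reg η p L.ω₁ with hc
  set d := reg η p L.ω₂ with hd
  -- solve
  set s : ℝ := (x * d - y * c) / (a * d - b * c) with hs
  set t : ℝ := (a * y - b * x) / (a * d - b * c) with ht
  have e1 : s * a + t * c = x := by
    rw [hs, ht, div_mul_eq_mul_div, div_mul_eq_mul_div, ← add_div, div_eq_iff hdet]
    ring
  have e2 : s * b + t * d = y := by
    rw [hs, ht, div_mul_eq_mul_div, div_mul_eq_mul_div, ← add_div, div_eq_iff hdet]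
    ring
  have hopen : IsOpen {q : ℝ × ℝ | |q.1 * a + q.2 * c - x| < ε ∧ |q.1 * b + q.2 * d - y| < ε} := by
    have c1 : Continuous (fun q : ℝ × ℝ => |q.1 * a + q.2 * c - x|) := by fun_prop
    have c2 : Continuous (fun q : ℝ × ℝ => |q.1 * b + q.2 * d - y|) := by fun_prop
    exact (isOpen_lt c1 continuous_const).inter (isOpen_lt c2 continuous_const)
  have hne : ({q : ℝ × ℝ | |q.1 * a + q.2 * c - x| < ε ∧
      |q.1 * b + q.2 * d - y| < ε}).Nonempty := by
    refine ⟨(s, t), ?_, ?_⟩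
    · simp only
      rw [e1, sub_self, abs_zero]
      exact hε
    · simp only
      rw [e2, sub_self, abs_zero]
      exact hε
  have hdr : DenseRange (fun x : ℚ × ℚ => ((x.1 : ℝ), (x.2 : ℝ))) :=
    (Rat.denseRange_cast (𝕜 := ℝ)).prodMap (Rat.denseRange_cast (𝕜 := ℝ))
  obtain ⟨⟨q, r⟩, h1, h2⟩ := hdr.exists_mem_open hopen hne
  simp only at h1 h2
  refine ⟨q.den * r.den, smulS (q.num * r.den) ξ ++ smulS (r.num * q.den) η,
    Nat.mul_pos q.den_pos r.den_pos, (hξ.smulS _).append (hη.smulS _), ?_, ?_⟩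
  all_goals
    rw [reg_append, reg_smulS, reg_smulS]
    have hq0 : (q.den : ℝ) ≠ 0 := by exact_mod_cast q.den_nz
    have hr0 : (r.den : ℝ) ≠ 0 := by exact_mod_cast r.den_nz
    have hq : (q : ℝ) = (q.num : ℝ) / (q.den : ℝ) := by exact_mod_cast (Rat.num_div_den q).symm
    have hr : (r : ℝ) = (r.num : ℝ) / (r.den : ℝ) := by exact_mod_cast (Rat.num_div_den r).symm
  · rw [hq, hr] at h1
    have e : (((q.num * r.den : ℤ) : ℝ) * reg ξ p L.ω₁ + ((r.num * q.den : ℤ) : ℝ) *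
        reg η p L.ω₁) / ((q.den * r.den : ℕ) : ℝ) =
        (q.num : ℝ) / (q.den : ℝ) * a + (r.num : ℝ) / (r.den : ℝ) * c := by
      push_cast
      rw [← ha, ← hc]
      field_simp
    rw [e]
    exact h1
  · rw [hq, hr] at h2
    have e : (((q.num * r.den : ℤ) : ℝ) * reg ξ p L.ω₂ + ((r.num * q.den : ℤ) : ℝ) *
        reg η p L.ω₂) / ((q.den * r.den : ℕ) : ℝ) =
        (q.num : ℝ) / (q.den : ℝ) * b + (r.num : ℝ) / (r.den : ℝ) * d := by
      push_cast
      rw [← hb, ← hd]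
      field_simp
    rw [e]
    exact h2

end Pool.Agent.J4.H64.EK
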