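import Pool.Agent.J4.H64.EK.Reg

/-!
# The mean value of the density for symbols from translates
-/

set_option autoImplicit false

open Filter Topology H4EP MeasureTheory Set

namespace Pool.Agent.J4.H64.EK

theorem area_cons (L : PeriodPair) (t : ℤ × (ℂ → ℂ) × (ℂ → ℂ)) (ξ : Sym2K) (w : ℂ) :
    area L (t :: ξ) w = t.1 * area1 L t.2.1 t.2.2 w + area L ξ w := by
  simp [area]

theorem area_append (L : PeriodPair) (ξ η : Sym2K) (w : ℂ) :
    area L (ξ ++ η) w = area L ξ w + area L η w := by
  simp [area]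

theorem area_smulS (L : PeriodPair) (n : ℤ) (ξ : Sym2K) (w : ℂ) :
    area L (smulS n ξ) w = n * area L ξ w := by
  induction ξ with
  | nil => simp [area, smulS]
  | cons t ξ ih =>
    have h1 : smulS n (t :: ξ) = (n * t.1, t.2) :: smulS n ξ := rfl
    rw [h1, area_cons, area_cons, ih]
    push_cast
    ring

/-! ### constants -/

theorem area1_const {L : PeriodPair} {f : ℂ → ℂ} (hf : IsElliptic L f) (κ w : ℂ) :
    area1 L f (fun _ => κ) w = 0 := by
  obtain ⟨u, hu⟩ := ee_surj L (-Complex.I * w)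
  have h1 : lift L (dens f (fun _ => κ) w) =
      fun x => - Real.log ‖κ‖ * lift L (Dv (ee L u) f) x := by
    funext x
    unfold lift
    rw [dens_eq]
    unfold Lg Dv
    rw [logDeriv_const, hu]
    simp
  unfold area1
  rw [h1, integral_const_mul, mean_zero hf u, mul_zero]

theorem area_corr {L : PeriodPair} {η : Sym2K} (h : Corr L η) (w : ℂ) : area L η w = 0 := by
  induction η with
  | nil => simp [area]
  | cons t η ih =>
    rw [area_cons, ih fun s hs => h s (List.mem_cons_of_mem _ hs)]
    obtain ⟨h1, h2, κ, hκ, h3⟩ := h t List.mem_cons_self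
    rw [h3, area1_const h1]
    simp

/-! ### the involution -/

theorem logDeriv_neg (f : ℂ → ℂ) (z : ℂ) :
    logDeriv (fun w => f (-w)) z = - logDeriv f (-z) := by
  rw [logDeriv_apply, logDeriv_apply, deriv_comp_neg, neg_div]

theorem dens_neg (f g : ℂ → ℂ) (w z : ℂ) :
    dens (fun z => f (-z)) (fun z => g (-z)) w z = - dens f g w (-z) := by
  unfold dens
  rw [logDeriv_neg, logDeriv_neg, mul_neg, mul_neg, Complex.neg_im, Complex.neg_im]
  ring

theorem lift_neg {L : PeriodPair} {F : ℂ → ℝ} (hF : Per L F) (x : TT) :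
    lift L (fun z => F (-z)) x = lift L F (-x) := by
  have h1 : -x = tt (-rho x) := by
    have h2 := tt_rho x
    nth_rw 1 [← h2]
    exact Prod.ext rfl rfl
  rw [h1, lift_tt hF]
  unfold lift
  have h3 := ee_sub L 0 (rho x)
  rw [zero_sub] at h3
  rw [h3]
  simp [ee]

theorem negInv : Measure.IsNegInvariant muT :=
  Measure.IsAddHaarMeasure.isNegInvariant_of_regular (G := TT) (μ := muT)

theorem area1_neg {L : PeriodPair} {f g : ℂ → ℂ} (hf : IsElliptic L f) (hg : IsElliptic L g)
    (w : ℂ) : area1 L (fun z => f (-z)) (fun z => g (-z)) w = - area1 L f g w := by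
  unfold area1
  have h1 : lift L (dens (fun z => f (-z)) (fun z => g (-z)) w) =
      fun x => - lift L (dens f g w) (-x) := by
    funext x
    rw [← lift_neg (per_dens hf hg w)]
    unfold lift
    exact dens_neg f g w _
  have := negInv
  rw [h1, integral_neg, integral_neg_eq_self (lift L (dens f g w)) muT]

theorem area_nuS {L : PeriodPair} {ξ : Sym2K} (hξ : Ell L ξ) (w : ℂ) :
    area L (nuS ξ) w = - area L ξ w := by
  induction ξ with
  | nil => simp [area, nuS]
  | cons t ξ ih =>
    have h1 : nuS (t :: ξ) = (t.1, (fun z => t.2.1 (-z)), (fun z => t.2.2 (-z))) :: nuS ξ := rfl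
    rw [h1, area_cons, area_cons, ih fun s hs => hξ s (List.mem_cons_of_mem _ hs)]
    simp only
    rw [area1_neg (hξ t List.mem_cons_self).1 (hξ t List.mem_cons_self).2]
    ring

/-! ### correlations -/

/-- The correlation of `log |f|` with its derivative. -/
noncomputable def corr (L : PeriodPair) (f : ℂ → ℂ) (v : ℂ) (a : TT) : ℝ :=
  ∫ x, lift L (Lg f) x * lift L (Dv v f) (x + a) ∂muT

theorem Dv_trans (v : ℂ) (f : ℂ → ℂ) (a z : ℂ) :
    Dv v (fun x => f (x - a)) z = Dv v f (z - a) := by
  unfold Dv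
  rw [logDeriv_trans]

theorem tt_neg (q : ℝ × ℝ) : tt (-q) = - tt q := Prod.ext rfl rfl

theorem ee_neg (L : PeriodPair) (q : ℝ × ℝ) : ee L (-q) = - ee L q := by
  have h3 := ee_sub L 0 q
  rw [zero_sub] at h3
  rw [h3]
  simp [ee]

theorem area1_trans {L : PeriodPair} {f : ℂ → ℂ} (hf : IsElliptic L f) (q : ℝ × ℝ) (w : ℂ) :
    area1 L (fun z => f (z - ee L q)) f w =
      corr L f (-Complex.I * w) (tt q) - corr L f (-Complex.I * w) (- tt q) := by
  unfold area1 corr
  set v := -Complex.I * w with hv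
  have h1 : lift L (dens (fun z => f (z - ee L q)) f w) =
      fun x => lift L (Lg f) (x + tt (-q)) * lift L (Dv v f) x -
        lift L (Lg f) x * lift L (Dv v f) (x + tt (-q)) := by
    funext x
    rw [lift_add (per_Lg hf), lift_add (per_Dv hf v)]
    unfold lift
    rw [dens_eq, Dv_trans, ee_neg, ← sub_eq_add_neg]
    rfl
  have i1 : Integrable (fun x => lift L (Lg f) (x + tt (-q)) * lift L (Dv v f) x) muT :=
    intg0 ((memLp_Lg hf).comp_measurePreserving (mp_trans (tt (-q)))) (memLp_Dv hf v)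
  have i2 : Integrable (fun x => lift L (Lg f) x * lift L (Dv v f) (x + tt (-q))) muT :=
    intg (memLp_Lg hf) (memLp_Dv hf v) _
  rw [h1, integral_sub i1 i2, tt_neg]
  congr 1
  rw [← integral_trans (fun x => lift L (Lg f) (x + -tt q) * lift L (Dv v f) x) (tt q)]
  simp only [add_neg_cancel_right]

/-! ### the correlation is not even -/

theorem dense_tt : DenseRange (fun q : ℚ × ℚ => tt ((q.1 : ℝ), (q.2 : ℝ))) := by
  have h1 : DenseRange (fun x : ℚ × ℚ => ((x.1 : ℝ), (x.2 : ℝ))) :=
    (Rat.denseRange_cast (𝕜 := ℝ)).prodMap (Rat.denseRange_cast (𝕜 := ℝ))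
  have h2 : Function.Surjective tt := fun x => ⟨rho x, tt_rho x⟩
  exact h2.denseRange.comp h1 continuous_tt

theorem even_const {L : PeriodPair} {f : ℂ → ℂ} (hf : IsElliptic L f) (u : ℝ × ℝ)
    (h : ∀ q : ℚ × ℚ, corr L f (ee L u) (tt ((q.1 : ℝ), (q.2 : ℝ))) =
      corr L f (ee L u) (- tt ((q.1 : ℝ), (q.2 : ℝ)))) {r : ℝ} (hr : 0 ≤ r) :
    ∀ᵐ x ∂muT, lift L (Lg f) (x + tt (r • u)) = lift L (Lg f) x := by
  have hG := memLp_Lg hf
  have mG : Measurable (lift L (Lg f)) := meas_lift (meas_log hf)
  have hcont : Continuous (corr L f (ee L u)) := cont_corr hG (memLp_Dv hf (ee L u))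
  have heven : corr L f (ee L u) = fun a => corr L f (ee L u) (-a) := by
    refine dense_tt.equalizer hcont (hcont.comp continuous_neg) ?_
    funext q
    exact h q
  have h1 := incr hf hG mG u hr
  have h2 := incr hf hG mG (-u) hr
  have e1 : (fun s : ℝ => ∫ x, lift L (Lg f) x * lift L (Dv (ee L u) f) (x + tt (s • u)) ∂muT) =
      fun s : ℝ => corr L f (ee L u) (tt (s • u)) := rfl
  have e2 : (fun s : ℝ => ∫ x, lift L (Lg f) x * lift L (Dv (ee L (-u)) f)
      (x + tt (s • (-u))) ∂muT) = fun s : ℝ => - corr L f (ee L u) (tt (s • u)) := by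
    funext s
    rw [heven]
    simp only
    unfold corr
    rw [← integral_neg]
    congr 1
    funext x
    have h3 : tt (s • (-u)) = - tt (s • u) := by
      rw [smul_neg, tt_neg]
    rw [h3]
    have h4 : ∀ y, lift L (Dv (ee L (-u)) f) y = - lift L (Dv (ee L u) f) y := by
      intro y
      unfold lift Dv
      rw [ee_neg, neg_mul, Complex.neg_re]
    rw [h4]
    ring
  rw [e1] at h1
  rw [e2, intervalIntegral.integral_neg] at h2
  have hG2 : MemLp (lift L (Lg f)) 2 muT := hG.mono_exponent (by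
    norm_num)
  have hT : ∀ a : TT, MemLp (fun x => lift L (Lg f) (x + a)) 2 muT := fun a =>
    hG2.comp_measurePreserving (mp_trans a)
  have iab : ∀ a b : TT, Integrable (fun x => lift L (Lg f) (x + a) * lift L (Lg f) (x + b)) muT :=
    fun a b => (hT a).integrable_mul (hT b)
  have ia : ∀ a : TT, Integrable (fun x => lift L (Lg f) x * lift L (Lg f) (x + a)) muT :=
    fun a => hG2.integrable_mul (hT a)
  have i0 : Integrable (fun x => lift L (Lg f) x * lift L (Lg f) x) muT :=
    hG2.integrable_mul hG2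
  have e3 : ∀ a : TT, ∫ x, lift L (Lg f) x * (lift L (Lg f) (x + a) - lift L (Lg f) x) ∂muT =
      ∫ x, lift L (Lg f) x * lift L (Lg f) (x + a) ∂muT -
        ∫ x, lift L (Lg f) x * lift L (Lg f) x ∂muT := by
    intro a
    rw [← integral_sub (ia a) i0]
    congr 1
    funext x
    ring
  rw [e3] at h1 h2
  have e4 : ∫ x, lift L (Lg f) x * lift L (Lg f) (x + tt (r • (-u))) ∂muT =
      ∫ x, lift L (Lg f) x * lift L (Lg f) (x + tt (r • u)) ∂muT := by
    rw [← integral_trans (fun x => lift L (Lg f) x * lift L (Lg f) (x + tt (r • (-u))))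
      (tt (r • u))]
    congr 1
    funext x
    have h3 : tt (r • (-u)) = - tt (r • u) := by
      rw [smul_neg, tt_neg]
    rw [h3, add_neg_cancel_right, mul_comm]
  rw [e4] at h2
  have h5 : ∫ x, (lift L (Lg f) (x + tt (r • u)) - lift L (Lg f) x) ^ 2 ∂muT = 0 := by
    have h6 : (fun x => (lift L (Lg f) (x + tt (r • u)) - lift L (Lg f) x) ^ 2) =
        fun x => (lift L (Lg f) (x + tt (r • u)) * lift L (Lg f) (x + tt (r • u)) +
          lift L (Lg f) x * lift L (Lg f) x) -
          2 * (lift L (Lg f) x * lift L (Lg f) (x + tt (r • u))) := by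
      funext x
      ring
    have i1 : Integrable (fun x => lift L (Lg f) (x + tt (r • u)) *
        lift L (Lg f) (x + tt (r • u)) + lift L (Lg f) x * lift L (Lg f) x) muT :=
      (iab _ _).add i0
    rw [h6, integral_sub i1 ((ia _).const_mul 2), integral_add (iab _ _) i0,
      integral_const_mul, integral_trans (fun x => lift L (Lg f) x * lift L (Lg f) x)]
    linarith
  rw [integral_eq_zero_iff_of_nonneg (fun x => sq_nonneg _)] at h5
  · filter_upwards [h5] with x hx
    have : (lift L (Lg f) (x + tt (r • u)) - lift L (Lg f) x) ^ 2 = 0 := hx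
    have := pow_eq_zero_iff (two_ne_zero) |>.1 this
    linarith
  · have h6 : (fun x => (lift L (Lg f) (x + tt (r • u)) - lift L (Lg f) x) ^ 2) =
        fun x => (lift L (Lg f) (x + tt (r • u)) * lift L (Lg f) (x + tt (r • u)) +
          lift L (Lg f) x * lift L (Lg f) x) -
          2 * (lift L (Lg f) x * lift L (Lg f) (x + tt (r • u))) := by
      funext x
      ring
    rw [h6]
    exact ((iab _ _).add i0).sub ((ia _).const_mul 2)

end Pool.Agent.J4.H64.EK
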