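import Pool.Agent.J4.H64.EK.Area

/-!
# Elements of `K_2` of elliptic curves
-/

set_option autoImplicit false

open Filter Topology H4EP MeasureTheory Set

namespace Pool.Agent.J4.H64.EK

/-! ### the involution and tame symbols -/

theorem ana_neg (x : ℂ) : AnalyticAt ℂ (fun z : ℂ => -z) x := by fun_prop

theorem deriv_neg_ne (x : ℂ) : deriv (fun z : ℂ => -z) x ≠ 0 := by
  have h := deriv_neg (𝕜 := ℂ) x
  have h2 : deriv (fun z : ℂ => -z) x = -1 := h
  rw [h2]
  norm_num

theorem ordZ_neg (f : ℂ → ℂ) (z : ℂ) : ordZ (fun w => f (-w)) z = ordZ f (-z) := by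
  unfold ordZ
  have h := meromorphicOrderAt_comp_of_deriv_ne_zero (f := f) (ana_neg z) (deriv_neg_ne z)
  have h2 : (f ∘ fun z : ℂ => -z) = fun w => f (-w) := rfl
  rw [h2] at h
  rw [h]

theorem not_evc (x : ℂ) : ¬ EventuallyConst (fun z : ℂ => -z) (𝓝 x) := by
  rw [eventuallyConst_iff_analyticOrderAt_sub_eq_top,
    (ana_neg x).analyticOrderAt_sub_eq_one_of_deriv_ne_zero (deriv_neg_ne x)]
  exact ENat.one_ne_top

theorem lc_neg {L : PeriodPair} {f : ℂ → ℂ} (hf : IsElliptic L f) (z : ℂ) :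
    lc (fun w => f (-w)) z = (-1) ^ ordZ f (-z) * lc f (-z) := by
  unfold lc ordZ
  have h := MeromorphicAt.meromorphicTrailingCoeffAt_comp (hf.mero (-z)) (ana_neg z) (not_evc z)
  have h2 : (f ∘ fun z : ℂ => -z) = fun w => f (-w) := rfl
  rw [h2, smul_eq_mul] at h
  rw [h]
  congr 2
  classical
  have h3 : (fun w : ℂ => -w - -z) = fun w => - (w - z) := by
    funext w
    ring
  rw [h3, meromorphicTrailingCoeffAt_fun_neg, meromorphicTrailingCoeffAt_id_sub_const, if_pos rfl]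

theorem tame_neg {L : PeriodPair} {f g : ℂ → ℂ} (hf : IsElliptic L f) (hg : IsElliptic L g)
    (z : ℂ) : tame (fun w => f (-w)) (fun w => g (-w)) z = tame f g (-z) := by
  unfold tame
  rw [ordZ_neg, ordZ_neg, lc_neg hf, lc_neg hg, mul_zpow, mul_zpow, ← zpow_mul, ← zpow_mul,
    mul_comm (ordZ g (-z)) (ordZ f (-z))]
  have h1 : ((-1 : ℂ)) ^ (ordZ f (-z) * ordZ g (-z)) ≠ 0 := zpow_ne_zero _ (by norm_num)
  have h2 : lc g (-z) ^ ordZ f (-z) ≠ 0 := zpow_ne_zero _ (lc_ne_zero hg _)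
  field_simp

theorem IsElliptic.neg {L : PeriodPair} {f : ℂ → ℂ} (hf : IsElliptic L f) :
    IsElliptic L (fun w => f (-w)) where
  mero z := (hf.mero (-z)).comp_analyticAt (g := fun w => -w) (ana_neg z)
  per z l hl := by
    have := hf.per (-z) (-l) (L.lattice.neg_mem hl)
    rw [← this]
    ring_nf
  ne_top z := by
    have h := meromorphicOrderAt_comp_of_deriv_ne_zero (f := f) (ana_neg z) (deriv_neg_ne z)
    have h2 : (f ∘ fun z : ℂ => -z) = fun w => f (-w) := rfl
    rw [h2] at h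
    rw [h]
    exact hf.ne_top _

theorem tameS_nuS {L : PeriodPair} {ξ : Sym2K} (hξ : Ell L ξ) (z : ℂ) :
    tameS (nuS ξ) z = tameS ξ (-z) := by
  induction ξ with
  | nil => rfl
  | cons t ξ ih =>
    have h1 : nuS (t :: ξ) = (t.1, (fun z => t.2.1 (-z)), (fun z => t.2.2 (-z))) :: nuS ξ := rfl
    rw [h1, tameS_cons, tameS_cons, ih fun s hs => hξ s (List.mem_cons_of_mem _ hs)]
    simp only
    rw [tame_neg (hξ t List.mem_cons_self).1 (hξ t List.mem_cons_self).2]

theorem Ell.nuS {L : PeriodPair} {ξ : Sym2K} (h : Ell L ξ) : Ell L (nuS ξ) := by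
  intro s hs
  unfold EK.nuS at hs
  rw [List.mem_map] at hs
  obtain ⟨t, ht, rfl⟩ := hs
  exact ⟨(h t ht).1.neg, (h t ht).2.neg⟩

theorem good_neg {f : ℂ → ℂ} {z : ℂ} (h : -z ∈ good f) : z ∈ good (fun w => f (-w)) :=
  ⟨AnalyticAt.comp_of_eq (f := fun w => -w) h.1 (ana_neg z) rfl, h.2⟩

/-- The torsion points. -/
def tors (L : PeriodPair) : Set ℂ := {z | IsTor L z}

theorem Supp.nuS {L : PeriodPair} {ξ : Sym2K} (h : Supp (tors L) ξ) : Supp (tors L) (nuS ξ) := by
  intro s hs z hz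
  unfold EK.nuS at hs
  rw [List.mem_map] at hs
  obtain ⟨t, ht, rfl⟩ := hs
  have h0 : -z ∉ tors L := fun h => hz (by
    have h2 : IsTor L (-(-z)) := IsTor.neg h
    rwa [neg_neg] at h2)
  have h1 := h t ht (-z) h0
  exact ⟨good_neg h1.1, good_neg h1.2⟩

/-- Elements of `K_2` of the elliptic curve with divisors supported in the torsion points. -/
def KK (L : PeriodPair) (ξ : Sym2K) : Prop :=
  Ell L ξ ∧ (∀ z, tameS ξ z = 1) ∧ Supp (tors L) ξ

theorem KK.append {L : PeriodPair} {ξ η : Sym2K} (h1 : KK L ξ) (h2 : KK L η) :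
    KK L (ξ ++ η) :=
  ⟨h1.1.append h2.1, fun z => by rw [tameS_append, h1.2.1, h2.2.1, one_mul],
    h1.2.2.append h2.2.2⟩

theorem KK.smulS {L : PeriodPair} {ξ : Sym2K} (h1 : KK L ξ) (n : ℤ) : KK L (smulS n ξ) :=
  ⟨h1.1.smulS n, fun z => by rw [tameS_smulS, h1.2.1, one_zpow], h1.2.2.smulS n⟩

/-! ### the point of order three in the interior of the square -/

/-- The point. -/
noncomputable def cc (L : PeriodPair) : ℂ := ee L (1 / 3, 1 / 3)

theorem cc_eq (L : PeriodPair) : cc L = L.ω₁ / 3 + L.ω₂ / 3 := by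
  unfold cc ee
  push_cast
  ring

theorem isTor_cc (L : PeriodPair) : IsTor L (cc L) := by
  have h := isTor_rat (L := L) (1 / 3) (1 / 3)
  have h1 : ((1 / 3 : ℚ) : ℂ) * L.ω₁ + ((1 / 3 : ℚ) : ℂ) * L.ω₂ = cc L := by
    rw [cc_eq]
    push_cast
    ring
  rwa [h1] at h

theorem three_cc (L : PeriodPair) : 3 • cl L (cc L) = 0 := by
  rw [← cl_nmul, cl_eq_zero, cc_eq]
  have : ((3 : ℕ) : ℂ) * (L.ω₁ / 3 + L.ω₂ / 3) = L.ω₁ + L.ω₂ := by
    push_cast
    ring
  rw [this]
  exact L.lattice.add_mem L.ω₁_mem_lattice L.ω₂_mem_lattice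

theorem cc_ne (L : PeriodPair) : cl L (cc L) ≠ 0 := by
  intro h
  have h1 := cl_eq_zero.1 h
  have h2 := (PeriodPair.mul_ω₁_add_mul_ω₂_mem_lattice (L := L) (α := 1 / 3) (β := 1 / 3)).1 (by
    have : (((1 / 3 : ℚ) : ℂ) * L.ω₁ + ((1 / 3 : ℚ) : ℂ) * L.ω₂) = cc L := by
      rw [cc_eq]
      push_cast
      ring
    rw [this]
    exact h1)
  have h3 : (1 / 3 : ℚ).den = 3 := by norm_num
  omega

theorem two_cc (L : PeriodPair) : 2 • cl L (cc L) ≠ 0 := by
  intro h
  have h1 : 3 • cl L (cc L) = 2 • cl L (cc L) + cl L (cc L) := by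
    rw [← succ_nsmul]
  rw [three_cc, h, zero_add] at h1
  exact cc_ne L h1.symm

/-! ### the correlation is not even -/

theorem not_even (L : PeriodPair) {v : ℂ} (hv : v ≠ 0) :
    ∃ q : ℚ × ℚ, corr L (uu L (cc L)) v (tt ((q.1 : ℝ), (q.2 : ℝ))) ≠
      corr L (uu L (cc L)) v (- tt ((q.1 : ℝ), (q.2 : ℝ))) := by
  by_contra hcon
  push Not at hcon
  set f : ℂ → ℂ := uu L (cc L) with hf
  have hfe : IsElliptic L f := isElliptic_uu (two_cc L)
  obtain ⟨u, hu⟩ := ee_surj L v
  rw [← hu] at hcon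
  have key : ∀ r : ℝ, 0 ≤ r → ∀ᵐ y ∂(volume.restrict sq : Measure (ℝ × ℝ)),
      Lg f (ee L y + r * v) = Lg f (ee L y) := by
    intro r hr
    have h1 := even_const hfe u hcon hr
    have h2 : ∀ᵐ x ∂muT, Lg f (ee L (rho x) + r * v) = Lg f (ee L (rho x)) := by
      filter_upwards [h1] with x hx
      rw [lift_add (per_Lg hfe), ee_smul, hu] at hx
      exact hx
    rw [← mp_rho.map_eq]
    rw [ae_map_iff meas_rho.aemeasurable]
    · exact h2
    · refine measurableSet_eq_fun ?_ ?_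
      · exact (meas_log hfe).comp (by
          have : Continuous (fun y : ℝ × ℝ => ee L y + r * v) :=
            (continuous_ee L).add continuous_const
          exact this.measurable)
      · exact (meas_log hfe).comp (continuous_ee L).measurable
  -- the zero of `f`
  set c : ℂ := cc L with hc
  have hana : AnalyticAt ℂ f c := ana_sub L c (fun h => cc_ne L (cl_eq_zero.2 h))
  have hfc : f c = 0 := by
    rw [hf]
    unfold uu
    exact sub_self _
  have hne : ∀ᶠ z in 𝓝[≠] c, f z ≠ 0 :=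
    (meromorphicOrderAt_ne_top_iff_eventually_ne_zero (hfe.mero c)).1 (hfe.ne_top c)
  have hlim : Tendsto (fun z => Lg f z) (𝓝[≠] c) atBot := by
    have h1 : Tendsto (fun z => ‖f z‖) (𝓝[≠] c) (𝓝[≠] 0) := by
      refine tendsto_nhdsWithin_iff.2 ⟨?_, ?_⟩
      · have h2 : Tendsto (fun z => ‖f z‖) (𝓝 c) (𝓝 ‖f c‖) := hana.continuousAt.norm
        rw [hfc, norm_zero] at h2
        exact h2.mono_left nhdsWithin_le_nhds
      · filter_upwards [hne] with z hz
        exact norm_ne_zero_iff.2 hz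
    exact Real.tendsto_log_nhdsNE_zero.comp h1
  -- the shift
  obtain ⟨r, hr0, hr⟩ : ∃ r : ℝ, 0 < r ∧ c + r * v ∈ good f := by
    have h1 : {r : ℝ | c + (r : ℂ) * v ∈ (good f)ᶜ}.Countable := by
      refine (countable_bad hfe).preimage_of_injOn (f := fun r : ℝ => c + (r : ℂ) * v) ?_
      intro a _ b _ hab
      have h2 : (a : ℂ) * v = (b : ℂ) * v := by
        have : c + (a : ℂ) * v = c + (b : ℂ) * v := hab
        exact add_left_cancel this
      exact_mod_cast mul_right_cancel₀ hv h2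
    have h2 : Dense {r : ℝ | c + (r : ℂ) * v ∈ (good f)ᶜ}ᶜ := h1.dense_compl ℝ
    obtain ⟨r, h3, h4⟩ := h2.inter_open_nonempty (Ioi 0) isOpen_Ioi ⟨1, by simp⟩
    refine ⟨r, h3, ?_⟩
    by_contra h5
    exact h4 h5
  have hcont : ContinuousAt (fun z => Lg f (z + r * v)) c := by
    exact ContinuousAt.comp (f := fun z : ℂ => z + (r : ℂ) * v) (continuousAt_Lg hr)
      (by fun_prop)
  have hev1 : ∀ᶠ z in 𝓝[≠] c, Lg f (c + r * v) - 1 < Lg f (z + r * v) :=
    (hcont.eventually (eventually_gt_nhds (by linarith))).filter_mono nhdsWithin_le_nhds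
  have hev2 : ∀ᶠ z in 𝓝[≠] c, Lg f z < Lg f (c + r * v) - 1 :=
    hlim.eventually (eventually_lt_atBot _)
  -- in coordinates
  set y0 : ℝ × ℝ := (1 / 3, 1 / 3) with hy0
  have h3 : Tendsto (ee L) (𝓝[≠] y0) (𝓝[≠] c) := by
    refine tendsto_nhdsWithin_iff.2 ⟨((continuous_ee L).tendsto y0).mono_left
      nhdsWithin_le_nhds, ?_⟩
    filter_upwards [self_mem_nhdsWithin] with x hx
    intro h
    apply hx
    have h2 : ee L (x - y0) = 0 := by
      rw [ee_sub, sub_eq_zero]
      exact h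
    exact sub_eq_zero.1 (ee_inj L _ h2)
  have h4 : ∀ᶠ y in 𝓝[≠] y0, Lg f (ee L y + r * v) ≠ Lg f (ee L y) := by
    filter_upwards [h3.eventually hev1, h3.eventually hev2] with y h5 h6 h7
    linarith
  have h5 : ∀ᶠ y in 𝓝 y0, y ∈ sq := by
    have : Ioo (0 : ℝ) 1 ×ˢ Ioo (0 : ℝ) 1 ∈ 𝓝 y0 := by
      refine (isOpen_Ioo.prod isOpen_Ioo).mem_nhds ?_
      rw [hy0]
      constructor <;> constructor <;> norm_num
    filter_upwards [this] with y hy
    exact ⟨⟨hy.1.1, hy.1.2.le⟩, ⟨hy.2.1, hy.2.2.le⟩⟩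
  rw [eventually_nhdsWithin_iff] at h4
  obtain ⟨δ, hδ, hball⟩ := Metric.eventually_nhds_iff_ball.1 (h4.and h5)
  set U : Set (ℝ × ℝ) := Metric.ball y0 δ \ {y0} with hU
  have hUo : IsOpen U := Metric.isOpen_ball.sdiff isClosed_singleton
  have hUne : U.Nonempty := by
    have h6 : ∀ᶠ y in 𝓝[≠] y0, y ∈ Metric.ball y0 δ :=
      nhdsWithin_le_nhds (Metric.ball_mem_nhds y0 hδ)
    obtain ⟨y, h7, h8⟩ := (h6.and self_mem_nhdsWithin).exists
    exact ⟨y, h7, h8⟩
  have hpos : 0 < (volume : Measure (ℝ × ℝ)) U := hUo.measure_pos volume hUne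
  have hzero : (volume.restrict sq : Measure (ℝ × ℝ)) U = 0 := by
    have h6 := key r hr0.le
    rw [ae_iff] at h6
    refine measure_mono_null ?_ h6
    intro y hy
    exact (hball y hy.1).1 hy.2
  have hUs : U ⊆ sq := fun y hy => (hball y hy.1).2
  rw [Measure.restrict_apply hUo.measurableSet, inter_eq_self_of_subset_left hUs] at hzero
  exact hpos.ne' hzero

/-! ### elements of `K_2` -/

theorem exists_KK (L : PeriodPair) {w : ℂ} (hw : w ≠ 0) : ∃ ξ, KK L ξ ∧ area L ξ w ≠ 0 := by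
  obtain ⟨q, hq⟩ := not_even L (v := -Complex.I * w)
    (mul_ne_zero (neg_ne_zero.2 Complex.I_ne_zero) hw)
  set c := cc L with hc
  set Q : ℂ := ee L ((q.1 : ℝ), (q.2 : ℝ)) with hQ
  have hQt : IsTor L Q := by
    have h := isTor_rat (L := L) q.1 q.2
    have h1 : ((q.1 : ℚ) : ℂ) * L.ω₁ + ((q.2 : ℚ) : ℂ) * L.ω₂ = Q := by
      rw [hQ]
      unfold ee
      push_cast
      rfl
    rwa [h1] at h
  have hct := isTor_cc L
  have hfe : IsElliptic L (uu L c) := isElliptic_uu (two_cc L)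
  set ζ0 : Sym2K := [(1, fun z => uu L c (z - Q), uu L c)] with hζ0
  have hE0 : Ell L ζ0 := by
    intro s hs
    rw [hζ0, List.mem_singleton] at hs
    subst hs
    exact ⟨hfe.trans Q, hfe⟩
  have hS0 : Supp (tors L) ζ0 := by
    intro s hs z hz
    rw [hζ0, List.mem_singleton] at hs
    subst hs
    have hz' : ¬ IsTor L z := hz
    refine ⟨good_trans (good_uu_tor (two_cc L) hct fun h => hz' ?_),
      good_uu_tor (two_cc L) hct hz'⟩
    have := h.add hQt
    rwa [sub_add_cancel] at this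
  obtain ⟨η, h1, h2, h3⟩ := moveT [Q, Q + c, Q - c, c, -c] (by
    intro R hR
    simp only [List.mem_cons, List.not_mem_nil, or_false] at hR
    rcases hR with rfl | rfl | rfl | rfl | rfl
    · exact hQt
    · exact hQt.add hct
    · exact hQt.sub hct
    · exact hct
    · exact hct.neg) ζ0 hE0
  set ζ : Sym2K := η ++ ζ0 with hζ
  have hE : Ell L ζ := h1.ell.append hE0
  have hS : Supp (tors L) ζ := (h1.supp fun z hz => hz).append hS0
  have ht : ∀ z, cl L z ≠ 0 → tameS ζ z = 1 := by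
    intro z hz
    by_cases hzW : ∃ R ∈ [Q, Q + c, Q - c, c, -c], cl L z = cl L R
    · obtain ⟨R, hR, hzR⟩ := hzW
      rw [tameS_per hE hzR]
      exact h3 R hR (by rwa [hzR] at hz)
    · have hz3 : ∀ R ∈ [Q, Q + c, Q - c, c, -c], cl L z ≠ cl L R := fun R hR h => hzW ⟨R, hR, h⟩
      rw [hζ, tameS_append, h2 z hz hz3, one_mul, hζ0, tameS_cons, tameS_nil, mul_one, zpow_one]
      refine tame_of_ordZ_zero ?_ ?_
      · rw [ordZ_trans, ordZ_uu (two_cc L), chi_of_not, chi_of_not, chi_of_not]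
        · norm_num
        · rw [cl_sub, sub_ne_zero]
          exact hz3 Q (by simp)
        · have : z - Q + cc L = z - (Q - c) := by
            rw [hc]
            ring
          rw [this, cl_sub, sub_ne_zero]
          exact hz3 (Q - c) (by simp)
        · have : z - Q - cc L = z - (Q + c) := by
            rw [hc]
            ring
          rw [this, cl_sub, sub_ne_zero]
          exact hz3 (Q + c) (by simp)
      · rw [ordZ_uu (two_cc L), chi_of_not, chi_of_not, chi_of_not hz]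
        · norm_num
        · have : z + cc L = z - (-c) := by
            rw [hc]
            ring
          rw [this, cl_sub, sub_ne_zero]
          exact hz3 (-c) (by simp)
        · rw [cl_sub, sub_ne_zero]
          exact hz3 c (by simp)
  refine ⟨ζ ++ smulS (-1) (nuS ζ), ⟨hE.append (hE.nuS.smulS _), fun z => ?_,
    hS.append (hS.nuS.smulS _)⟩, ?_⟩
  · rw [tameS_append, tameS_smulS, tameS_nuS hE, zpow_neg, zpow_one]
    by_cases hz : cl L z = 0
    · have : cl L z = cl L (-z) := by rw [cl_neg, hz, neg_zero]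
      rw [tameS_per hE this]
      exact mul_inv_cancel₀ (tameS_ne_zero hE _)
    · have hz' : cl L (-z) ≠ 0 := by
        rw [cl_neg, neg_ne_zero]
        exact hz
      rw [ht z hz, ht (-z) hz', inv_one, mul_one]
  · rw [area_append, area_smulS, area_nuS hE, hζ, area_append, area_corr h1, hζ0, area_cons]
    have h4 := area1_trans hfe ((q.1 : ℝ), (q.2 : ℝ)) w
    simp only
    rw [h4]
    have h5 : area L [] w = 0 := by simp [area]
    rw [h5]
    intro h6
    apply hq
    push_cast at h6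
    linarith

end Pool.Agent.J4.H64.EK
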