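import Pool.Agent.J4.H64.EK.Ftc

/-!
# Correlations on the torus
-/

set_option autoImplicit false

open Filter Topology H4EP MeasureTheory Set

namespace Pool.Agent.J4.H64.EK

theorem fact4 : Fact ((1 : ENNReal) ≤ 4) := ⟨by norm_num⟩

theorem fact43 : Fact ((1 : ENNReal) ≤ 4 / 3) := ⟨by
  rw [ENNReal.le_div_iff_mul_le (Or.inl (by norm_num)) (Or.inl (by norm_num))]
  norm_num⟩

theorem holder : ENNReal.HolderConjugate 4 (4 / 3) := by
  constructor
  rw [inv_one, ENNReal.inv_div (Or.inl (by norm_num)) (Or.inl (by norm_num))]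
  have h1 : (4 : ENNReal)⁻¹ = 1 / 4 := (one_div _).symm
  rw [h1, ENNReal.div_add_div_same]
  have h2 : (1 : ENNReal) + 3 = 4 := by norm_num
  rw [h2]
  exact ENNReal.div_self (by norm_num) (by norm_num)

theorem cont_corr {G D : TT → ℝ} (hG : MemLp G 4 muT) (hD : MemLp D (4 / 3) muT) :
    Continuous (fun a : TT => ∫ x, G x * D (x + a) ∂muT) := by
  haveI := fact4
  haveI := fact43
  haveI := holder
  set P := ContinuousLinearMap.lpPairing muT 4 (4 / 3) (ContinuousLinearMap.mul ℝ ℝ) with hP
  have h1 : ∀ a : TT, ∫ x, G x * D (x + a) ∂muT =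
      P (hG.toLp G) (Lp.compMeasurePreserving (fun x : TT => x + a) (mp_trans a) (hD.toLp D)) := by
    intro a
    rw [hP, ContinuousLinearMap.lpPairing_eq_integral]
    refine integral_congr_ae ?_
    have h2 := hG.coeFn_toLp
    have h3 := Lp.coeFn_compMeasurePreserving (hD.toLp D) (mp_trans a)
    have h4 := (mp_trans a).quasiMeasurePreserving.ae (hD.coeFn_toLp)
    filter_upwards [h2, h3, h4] with x h5 h6 h7
    rw [h5, h6, Function.comp_apply, h7]
    rfl
  simp only [h1]
  refine (P (hG.toLp G)).continuous.comp ?_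
  set g : C(TT, C(TT, TT)) :=
    (ContinuousMap.mk (fun p : TT × TT => p.2 + p.1) (by fun_prop)).curry with hg
  exact Continuous.compMeasurePreservingLp (g := fun a => g a) continuous_const g.continuous
    (fun a => mp_trans a) (by
      intro h
      have h1 : (4 / 3 : ENNReal) < ⊤ := ENNReal.div_lt_top (by norm_num) (by norm_num)
      exact h1.ne h)

theorem intg {G D : TT → ℝ} (hG : MemLp G 4 muT) (hD : MemLp D (4 / 3) muT) (a : TT) :
    Integrable (fun x => G x * D (x + a)) muT := by
  haveI := holder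
  exact hG.integrable_mul (hD.comp_measurePreserving (mp_trans a))

theorem fubini {G D : TT → ℝ} (hG : MemLp G 4 muT) (hD : MemLp D (4 / 3) muT)
    (mG : Measurable G) (mD : Measurable D) (u : ℝ × ℝ) {r : ℝ} (hr : 0 ≤ r) :
    ∫ x, G x * (∫ s in (0 : ℝ)..r, D (x + tt (s • u))) ∂muT =
      ∫ s in (0 : ℝ)..r, (∫ x, G x * D (x + tt (s • u)) ∂muT) := by
  rw [intervalIntegral.integral_of_le hr]
  have h0 : ∀ x, G x * (∫ s in (0 : ℝ)..r, D (x + tt (s • u))) =
      ∫ s in Ioc 0 r, G x * D (x + tt (s • u)) := by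
    intro x
    rw [intervalIntegral.integral_of_le hr, integral_const_mul]
  simp only [h0]
  have hcu : Continuous (fun s : ℝ => tt (s • u)) := continuous_tt.comp (by fun_prop)
  refine integral_integral_swap (μ := muT) (ν := volume.restrict (Ioc 0 r))
    (f := fun x s => G x * D (x + tt (s • u))) ?_
  have hm : Measurable (Function.uncurry fun (x : TT) (s : ℝ) => G x * D (x + tt (s • u))) := by
    have h1 : Measurable (fun p : TT × ℝ => p.1 + tt (p.2 • u)) := by
      have : Continuous (fun p : TT × ℝ => p.1 + tt (p.2 • u)) :=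
        continuous_fst.add (hcu.comp continuous_snd)
      exact this.measurable
    exact (mG.comp measurable_fst).mul (mD.comp h1)
  rw [integrable_prod_iff' hm.aestronglyMeasurable]
  constructor
  · refine Eventually.of_forall fun s => ?_
    have := intg hG hD (tt (s • u))
    exact this
  · have h2 : Continuous (fun a : TT => ∫ x, |G x| * |D (x + a)| ∂muT) := by
      have h3 := cont_corr hG.norm hD.norm
      simpa only [Real.norm_eq_abs] using h3
    have h4 : Continuous (fun s : ℝ => ∫ x, |G x| * |D (x + tt (s • u))| ∂muT) := h2.comp hcu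
    have h5 : (fun y : ℝ => ∫ x, ‖Function.uncurry (fun (x : TT) (s : ℝ) =>
        G x * D (x + tt (s • u))) (x, y)‖ ∂muT) =
        fun s : ℝ => ∫ x, |G x| * |D (x + tt (s • u))| ∂muT := by
      funext s
      congr 1
      funext x
      simp only [Function.uncurry_apply_pair, norm_mul, Real.norm_eq_abs]
    rw [h5]
    exact h4.integrableOn_Ioc

theorem memLp_Lg {L : PeriodPair} {f : ℂ → ℂ} (hf : IsElliptic L f) :
    MemLp (lift L (Lg f)) 4 muT := by
  refine memLp_lift L (meas_log hf) (by norm_num) (by norm_num) ?_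
  have : (4 : ENNReal).toReal = 4 := by norm_num
  rw [this]
  exact mild_log hf.mero hf.ne_top

theorem memLp_Dv {L : PeriodPair} {f : ℂ → ℂ} (hf : IsElliptic L f) (v : ℂ) :
    MemLp (lift L (Dv v f)) (4 / 3) muT := by
  refine memLp_lift L (meas_der hf v) (by norm_num) (by
    intro h
    have h1 : (4 / 3 : ENNReal) < ⊤ := ENNReal.div_lt_top (by norm_num) (by norm_num)
    exact h1.ne h) ?_
  have : (4 / 3 : ENNReal).toReal = 4 / 3 := by
    rw [ENNReal.toReal_div]
    norm_num
  rw [this]
  exact mild_deriv hf.mero hf.ne_top v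

/-- The increment of `log |f|` against `G`. -/
theorem incr {L : PeriodPair} {f : ℂ → ℂ} (hf : IsElliptic L f) {G : TT → ℝ}
    (hG : MemLp G 4 muT) (mG : Measurable G) (u : ℝ × ℝ) {r : ℝ} (hr : 0 ≤ r) :
    ∫ x, G x * (lift L (Lg f) (x + tt (r • u)) - lift L (Lg f) x) ∂muT =
      ∫ s in (0 : ℝ)..r, (∫ x, G x * lift L (Dv (ee L u) f) (x + tt (s • u)) ∂muT) := by
  rw [← fubini hG (memLp_Dv hf (ee L u)) mG (meas_lift (meas_der hf (ee L u))) u hr]
  refine integral_congr_ae ?_
  filter_upwards [ae_ftc hf u] with x hx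
  rw [hx r]

/-- The mean value of the derivative of `log |f|` is zero. -/
theorem mean_zero {L : PeriodPair} {f : ℂ → ℂ} (hf : IsElliptic L f) (u : ℝ × ℝ) :
    ∫ x, lift L (Dv (ee L u) f) x ∂muT = 0 := by
  have h1 := incr hf (G := fun _ => 1) (memLp_const 1) measurable_const u (r := 1) zero_le_one
  simp only [one_mul] at h1
  have hint : Integrable (lift L (Lg f)) muT :=
    (memLp_Lg hf).integrable (by norm_num)
  have h2 : ∫ x, (lift L (Lg f) (x + tt ((1 : ℝ) • u)) - lift L (Lg f) x) ∂muT = 0 := by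
    have hi : Integrable (fun x => lift L (Lg f) (x + tt ((1 : ℝ) • u))) muT :=
      (mp_trans (tt ((1 : ℝ) • u))).integrable_comp_of_integrable hint
    rw [integral_sub hi hint, integral_trans, sub_self]
  rw [h2] at h1
  have h3 : ∀ s : ℝ, ∫ x, lift L (Dv (ee L u) f) (x + tt (s • u)) ∂muT =
      ∫ x, lift L (Dv (ee L u) f) x ∂muT := fun s => integral_trans _ _
  simp only [h3] at h1
  rw [intervalIntegral.integral_const] at h1
  simpa using h1.symm

end Pool.Agent.J4.H64.EK
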