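import Pool.Agent.H4R3.EPa

/-!
# Elliptic functions, tame symbols and symbols in `K_2` of the function field
-/

set_option autoImplicit false

open Filter Topology H4EP

namespace Pool.Agent.J4.H64.EK

/-- Elliptic functions that are not identically zero. -/
structure IsElliptic (L : PeriodPair) (f : ℂ → ℂ) : Prop where
  mero : Meromorphic f
  per : ∀ z, ∀ l ∈ L.lattice, f (z + l) = f z
  ne_top : ∀ z, meromorphicOrderAt f z ≠ ⊤

/-- The order as an integer. -/
noncomputable def ordZ (f : ℂ → ℂ) (z : ℂ) : ℤ := (meromorphicOrderAt f z).untop₀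

/-- The leading coefficient. -/
noncomputable def lc (f : ℂ → ℂ) (z : ℂ) : ℂ := meromorphicTrailingCoeffAt f z

/-- The tame symbol of `{f, g}` at `z`. -/
noncomputable def tame (f g : ℂ → ℂ) (z : ℂ) : ℂ :=
  (-1) ^ (ordZ f z * ordZ g z) * lc f z ^ ordZ g z / lc g z ^ ordZ f z

/-- Finite sums `∑ n {f, g}` of symbols. -/
abbrev Sym2K : Type := List (ℤ × (ℂ → ℂ) × (ℂ → ℂ))

/-- The tame symbol of a sum of symbols at `z`. -/
noncomputable def tameS (ξ : Sym2K) (z : ℂ) : ℂ :=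
  (ξ.map fun s => tame s.2.1 s.2.2 z ^ s.1).prod

/-- All functions of `ξ` are elliptic functions. -/
def Ell (L : PeriodPair) (ξ : Sym2K) : Prop :=
  ∀ s ∈ ξ, IsElliptic L s.2.1 ∧ IsElliptic L s.2.2

theorem tameS_nil (z : ℂ) : tameS [] z = 1 := rfl

theorem tameS_cons (s : ℤ × (ℂ → ℂ) × (ℂ → ℂ)) (ξ : Sym2K) (z : ℂ) :
    tameS (s :: ξ) z = tame s.2.1 s.2.2 z ^ s.1 * tameS ξ z := by
  simp [tameS]

theorem tameS_append (ξ η : Sym2K) (z : ℂ) : tameS (ξ ++ η) z = tameS ξ z * tameS η z := by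
  simp [tameS]

theorem IsElliptic.ord {L : PeriodPair} {f : ℂ → ℂ} (hf : IsElliptic L f) (z : ℂ) :
    meromorphicOrderAt f z = ((ordZ f z : ℤ) : WithTop ℤ) :=
  (WithTop.coe_untop₀_of_ne_top (hf.ne_top z)).symm

theorem ordZ_of {f : ℂ → ℂ} {z : ℂ} {n : ℤ} (h : meromorphicOrderAt f z = (n : WithTop ℤ)) :
    ordZ f z = n := by
  rw [ordZ, h]
  rfl

theorem lc_ne_zero {L : PeriodPair} {f : ℂ → ℂ} (hf : IsElliptic L f) (z : ℂ) : lc f z ≠ 0 :=
  (hf.mero z).meromorphicTrailingCoeffAt_ne_zero (hf.ne_top z)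

theorem tame_ne_zero {L : PeriodPair} {f g : ℂ → ℂ} (hf : IsElliptic L f) (hg : IsElliptic L g)
    (z : ℂ) : tame f g z ≠ 0 := by
  unfold tame
  refine div_ne_zero (mul_ne_zero (zpow_ne_zero _ (by norm_num)) ?_) ?_
  · exact zpow_ne_zero _ (lc_ne_zero hf z)
  · exact zpow_ne_zero _ (lc_ne_zero hg z)

theorem tameS_ne_zero {L : PeriodPair} {ξ : Sym2K} (h : Ell L ξ) (z : ℂ) : tameS ξ z ≠ 0 := by
  induction ξ with
  | nil => simp [tameS]
  | cons s ξ ih =>
    rw [tameS_cons]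
    refine mul_ne_zero (zpow_ne_zero _ ?_) (ih fun t ht => h t (List.mem_cons_of_mem _ ht))
    exact tame_ne_zero (h s List.mem_cons_self).1 (h s List.mem_cons_self).2 z

/-! ### translation -/

theorem ordZ_trans (f : ℂ → ℂ) (a z : ℂ) : ordZ (fun w => f (w - a)) z = ordZ f (z - a) := by
  unfold ordZ
  rw [meromorphicOrderAt_fun_comp_sub_const_eq_meromorphicOrderAt]

theorem lc_trans (f : ℂ → ℂ) (a z : ℂ) : lc (fun w => f (w - a)) z = lc f (z - a) := by
  unfold lc
  rw [meromorphicTrailingCoeffAt_fun_comp_sub_const_eq_meromorphicTrailingCoeffAt]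

theorem tame_trans (f g : ℂ → ℂ) (a z : ℂ) :
    tame (fun w => f (w - a)) (fun w => g (w - a)) z = tame f g (z - a) := by
  unfold tame
  rw [ordZ_trans, ordZ_trans, lc_trans, lc_trans]

theorem IsElliptic.trans {L : PeriodPair} {f : ℂ → ℂ} (hf : IsElliptic L f) (a : ℂ) :
    IsElliptic L (fun w => f (w - a)) where
  mero z := by
    have h := hf.mero (z - a)
    exact (h.comp_analyticAt (g := fun w => w - a) (by fun_prop))
  per z l hl := by
    have := hf.per (z - a) l hl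
    rw [← this]
    ring_nf
  ne_top z := by
    rw [meromorphicOrderAt_fun_comp_sub_const_eq_meromorphicOrderAt]
    exact hf.ne_top _

/-- The translate of a sum of symbols. -/
def trS (a : ℂ) (ξ : Sym2K) : Sym2K :=
  ξ.map fun s => (s.1, (fun w => s.2.1 (w - a)), (fun w => s.2.2 (w - a)))

theorem tameS_trS (a : ℂ) (ξ : Sym2K) (z : ℂ) : tameS (trS a ξ) z = tameS ξ (z - a) := by
  unfold tameS trS
  rw [List.map_map]
  congr 1
  refine List.map_congr_left fun s _ => ?_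
  simp only [Function.comp]
  rw [tame_trans]

theorem Ell.trS {L : PeriodPair} {ξ : Sym2K} (h : Ell L ξ) (a : ℂ) : Ell L (trS a ξ) := by
  intro s hs
  unfold EK.trS at hs
  rw [List.mem_map] at hs
  obtain ⟨t, ht, rfl⟩ := hs
  exact ⟨(h t ht).1.trans a, (h t ht).2.trans a⟩

theorem per_of_cl {L : PeriodPair} {f : ℂ → ℂ} (hf : IsElliptic L f) {z w : ℂ}
    (h : cl L z = cl L w) : f z = f w := by
  have h1 := hf.per w (z - w) (cl_eq.1 h)
  rwa [add_sub_cancel] at h1

theorem ordZ_per {L : PeriodPair} {f : ℂ → ℂ} (hf : IsElliptic L f) {z w : ℂ}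
    (h : cl L z = cl L w) : ordZ f z = ordZ f w := by
  have h1 : (fun x => f (x - (z - w))) = f := by
    funext x
    refine per_of_cl hf ?_
    rw [cl_eq]
    have := cl_eq.1 h
    have h2 : x - (z - w) - x = -(z - w) := by ring
    rw [h2]
    exact L.lattice.neg_mem this
  have h2 := ordZ_trans f (z - w) z
  rw [h1, sub_sub_cancel] at h2
  exact h2

theorem lc_per {L : PeriodPair} {f : ℂ → ℂ} (hf : IsElliptic L f) {z w : ℂ}
    (h : cl L z = cl L w) : lc f z = lc f w := by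
  have h1 : (fun x => f (x - (z - w))) = f := by
    funext x
    refine per_of_cl hf ?_
    rw [cl_eq]
    have := cl_eq.1 h
    have h2 : x - (z - w) - x = -(z - w) := by ring
    rw [h2]
    exact L.lattice.neg_mem this
  have h2 := lc_trans f (z - w) z
  rw [h1, sub_sub_cancel] at h2
  exact h2

theorem tame_per {L : PeriodPair} {f g : ℂ → ℂ} (hf : IsElliptic L f) (hg : IsElliptic L g)
    {z w : ℂ} (h : cl L z = cl L w) : tame f g z = tame f g w := by
  unfold tame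
  rw [ordZ_per hf h, ordZ_per hg h, lc_per hf h, lc_per hg h]

theorem tameS_per {L : PeriodPair} {ξ : Sym2K} (hξ : Ell L ξ) {z w : ℂ}
    (h : cl L z = cl L w) : tameS ξ z = tameS ξ w := by
  induction ξ with
  | nil => rfl
  | cons s ξ ih =>
    rw [tameS_cons, tameS_cons, ih fun t ht => hξ t (List.mem_cons_of_mem _ ht),
      tame_per (hξ s List.mem_cons_self).1 (hξ s List.mem_cons_self).2 h]

/-! ### constants -/

theorem isElliptic_const (L : PeriodPair) {κ : ℂ} (hκ : κ ≠ 0) : IsElliptic L (fun _ => κ) where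
  mero _ := MeromorphicAt.const _ _
  per _ _ _ := rfl
  ne_top z := by
    classical
    rw [meromorphicOrderAt_const, if_neg hκ]
    exact WithTop.coe_ne_top

theorem ordZ_const {κ : ℂ} (hκ : κ ≠ 0) (z : ℂ) : ordZ (fun _ => κ) z = 0 := by
  classical
  refine ordZ_of ?_
  rw [meromorphicOrderAt_const, if_neg hκ]
  rfl

theorem lc_const (κ z : ℂ) : lc (fun _ => κ) z = κ := meromorphicTrailingCoeffAt_const

theorem tame_const (f : ℂ → ℂ) {κ : ℂ} (hκ : κ ≠ 0) (z : ℂ) :
    tame f (fun _ => κ) z = κ ^ (- ordZ f z) := by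
  unfold tame
  rw [ordZ_const hκ, lc_const, mul_zero, zpow_zero, zpow_zero, one_mul, zpow_neg, one_div]

theorem tame_of_ordZ_zero {f g : ℂ → ℂ} {z : ℂ} (hf : ordZ f z = 0) (hg : ordZ g z = 0) :
    tame f g z = 1 := by
  unfold tame
  rw [hf, hg]
  simp

theorem lc_of {g : ℂ → ℂ} {z : ℂ} (hg : AnalyticAt ℂ g z) (hz : g z ≠ 0) : lc g z = g z :=
  hg.meromorphicTrailingCoeffAt_of_ne_zero hz

theorem ordZ_of_ana {g : ℂ → ℂ} {z : ℂ} (hg : AnalyticAt ℂ g z) (hz : g z ≠ 0) :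
    ordZ g z = 0 := by
  refine ordZ_of ?_
  rw [hg.meromorphicOrderAt_eq, hg.analyticOrderAt_eq_zero.2 hz]
  rfl

/-- The tame symbol at a simple zero of `f` where `g` is finite and nonzero. -/
theorem tame_simple {f g : ℂ → ℂ} {z : ℂ} (hf : ordZ f z = 1) (hg : AnalyticAt ℂ g z)
    (hz : g z ≠ 0) : tame f g z = (g z)⁻¹ := by
  unfold tame
  rw [hf, ordZ_of_ana hg hz, lc_of hg hz]
  simp

/-! ### products and powers -/

theorem IsElliptic.mul {L : PeriodPair} {f g : ℂ → ℂ} (hf : IsElliptic L f)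
    (hg : IsElliptic L g) : IsElliptic L (fun z => f z * g z) where
  mero z := (hf.mero z).mul (hg.mero z)
  per z l hl := by rw [hf.per z l hl, hg.per z l hl]
  ne_top z := by
    rw [fun_meromorphicOrderAt_mul (hf.mero z) (hg.mero z), hf.ord, hg.ord, ← WithTop.coe_add]
    exact WithTop.coe_ne_top

theorem ordZ_mul {L : PeriodPair} {f g : ℂ → ℂ} (hf : IsElliptic L f)
    (hg : IsElliptic L g) (z : ℂ) : ordZ (fun z => f z * g z) z = ordZ f z + ordZ g z := by
  refine ordZ_of ?_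
  rw [fun_meromorphicOrderAt_mul (hf.mero z) (hg.mero z), hf.ord, hg.ord, ← WithTop.coe_add]

theorem IsElliptic.zpow {L : PeriodPair} {f : ℂ → ℂ} (hf : IsElliptic L f) (n : ℤ) :
    IsElliptic L (fun z => f z ^ n) where
  mero z := (hf.mero z).zpow n
  per z l hl := by rw [hf.per z l hl]
  ne_top z := by
    rw [fun_meromorphicOrderAt_zpow (hf.mero z), hf.ord, ← WithTop.coe_mul]
    exact WithTop.coe_ne_top

theorem ordZ_zpow {L : PeriodPair} {f : ℂ → ℂ} (hf : IsElliptic L f) (n : ℤ) (z : ℂ) :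
    ordZ (fun z => f z ^ n) z = n * ordZ f z := by
  refine ordZ_of ?_
  rw [fun_meromorphicOrderAt_zpow (hf.mero z), hf.ord, ← WithTop.coe_mul]

theorem isElliptic_prod {L : PeriodPair} {n : ℕ} (F : ℕ → ℂ → ℂ)
    (hF : ∀ k, IsElliptic L (F k)) :
    IsElliptic L (fun z => ∏ k ∈ Finset.range n, F k z) := by
  induction n with
  | zero =>
    simp only [Finset.range_zero, Finset.prod_empty]
    exact isElliptic_const L one_ne_zero
  | succ n ih =>
    simp only [Finset.prod_range_succ]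
    exact ih.mul (hF n)

theorem ordZ_prod {L : PeriodPair} {n : ℕ} (F : ℕ → ℂ → ℂ)
    (hF : ∀ k, IsElliptic L (F k)) (z : ℂ) :
    ordZ (fun z => ∏ k ∈ Finset.range n, F k z) z = ∑ k ∈ Finset.range n, ordZ (F k) z := by
  induction n with
  | zero =>
    simp only [Finset.range_zero, Finset.prod_empty, Finset.sum_empty]
    exact ordZ_const one_ne_zero z
  | succ n ih =>
    simp only [Finset.prod_range_succ, Finset.sum_range_succ]
    rw [ordZ_mul (isElliptic_prod F hF) (hF n), ih]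

/-! ### the functions `℘ - ℘(c)` -/

/-- The function `℘ - ℘(c)`. -/
noncomputable def uu (L : PeriodPair) (c : ℂ) (z : ℂ) : ℂ := L.weierstrassP z - L.weierstrassP c

theorem isElliptic_uu {L : PeriodPair} {c : ℂ} (hc : 2 • cl L c ≠ 0) :
    IsElliptic L (uu L c) where
  mero z := mero_sub L c z
  per z l hl := by
    unfold uu
    rw [wp_per L (z := z + l) (w := z) (by rw [cl_eq, add_sub_cancel_left]; exact hl)]
  ne_top z := by
    unfold uu
    rw [ord_sub L c hc]
    exact WithTop.coe_ne_top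

open Classical in
/-- The indicator function of the lattice. -/
noncomputable def chi (L : PeriodPair) (z : ℂ) : ℤ := if cl L z = 0 then 1 else 0

theorem chi_of {L : PeriodPair} {z : ℂ} (h : cl L z = 0) : chi L z = 1 := if_pos h
theorem chi_of_not {L : PeriodPair} {z : ℂ} (h : cl L z ≠ 0) : chi L z = 0 := if_neg h

theorem ordZ_uu {L : PeriodPair} {c : ℂ} (hc : 2 • cl L c ≠ 0) (z : ℂ) :
    ordZ (uu L c) z = chi L (z - c) + chi L (z + c) - 2 * chi L z := by
  classical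
  have h1 : ordZ (uu L c) z = (if cl L z = 0 then -2 else
      if cl L z = cl L c ∨ cl L z = - cl L c then 1 else 0) := ordZ_of (ord_sub L c hc z)
  have hc0 : cl L c ≠ 0 := fun h => hc (by rw [h, smul_zero])
  rw [h1]
  by_cases h0 : cl L z = 0
  · rw [if_pos h0, chi_of h0, chi_of_not (z := z - c), chi_of_not (z := z + c)]
    · norm_num
    · rwa [cl_add, h0, zero_add]
    · rwa [cl_sub, h0, zero_sub, neg_ne_zero]
  · rw [if_neg h0, chi_of_not h0]
    by_cases ha : cl L z = cl L c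
    · rw [if_pos (Or.inl ha), chi_of (z := z - c) (by rw [cl_sub, ha, sub_self]),
        chi_of_not (z := z + c)]
      · norm_num
      · rwa [cl_add, ha, ← two_nsmul]
    · by_cases hb : cl L z = - cl L c
      · rw [if_pos (Or.inr hb), chi_of (z := z + c) (by rw [cl_add, hb, neg_add_cancel]),
          chi_of_not (z := z - c)]
        · norm_num
        · rw [cl_sub, sub_ne_zero]
          exact ha
      · rw [if_neg (by tauto), chi_of_not (z := z - c), chi_of_not (z := z + c)]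
        · norm_num
        · rw [cl_add]
          intro h
          exact hb (eq_neg_of_add_eq_zero_left h)
        · rw [cl_sub, sub_ne_zero]
          exact ha

/-! ### torsion differences are principal -/

theorem sum_identity (N : ℤ) (c : ℕ → ℤ) (n : ℕ) :
    ∑ k ∈ Finset.range n, ((k : ℤ) + 1 - N) * (c (k + 2) + c k - 2 * c (k + 1)) =
      (n - N) * c (n + 1) - (n + 1 - N) * c n + N * c 1 + (1 - N) * c 0 := by
  induction n with
  | zero =>
    simp only [Finset.range_zero, Finset.sum_empty, Nat.cast_zero, zero_add]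
    ring
  | succ n ih =>
    rw [Finset.sum_range_succ, ih]
    push_cast
    ring

/-! ### points where a function is analytic and not zero -/

/-- The points where `f` is analytic and not zero. -/
def good (f : ℂ → ℂ) : Set ℂ := {z | AnalyticAt ℂ f z ∧ f z ≠ 0}

theorem good_mul {f g : ℂ → ℂ} {z : ℂ} (hf : z ∈ good f) (hg : z ∈ good g) :
    z ∈ good (fun z => f z * g z) :=
  ⟨hf.1.mul hg.1, mul_ne_zero hf.2 hg.2⟩

theorem good_zpow {f : ℂ → ℂ} {z : ℂ} (hf : z ∈ good f) (n : ℤ) :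
    z ∈ good (fun z => f z ^ n) :=
  ⟨hf.1.fun_zpow hf.2, zpow_ne_zero _ hf.2⟩

theorem good_const {κ : ℂ} (hκ : κ ≠ 0) (z : ℂ) : z ∈ good (fun _ => κ) :=
  ⟨analyticAt_const, hκ⟩

theorem good_prod {n : ℕ} (F : ℕ → ℂ → ℂ) {z : ℂ} (hF : ∀ k, z ∈ good (F k)) :
    z ∈ good (fun z => ∏ k ∈ Finset.range n, F k z) := by
  induction n with
  | zero =>
    simp only [Finset.range_zero, Finset.prod_empty]
    exact good_const one_ne_zero z
  | succ n ih =>
    simp only [Finset.prod_range_succ]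
    exact good_mul ih (hF n)

theorem good_trans {f : ℂ → ℂ} {a z : ℂ} (h : z - a ∈ good f) :
    z ∈ good (fun w => f (w - a)) :=
  ⟨AnalyticAt.comp_of_eq (f := fun w => w - a) h.1 (by fun_prop) rfl, h.2⟩

theorem good_uu {L : PeriodPair} {c : ℂ} (hc : 2 • cl L c ≠ 0) {z : ℂ} (h0 : cl L z ≠ 0)
    (h1 : cl L z ≠ cl L c) (h2 : cl L z ≠ - cl L c) : z ∈ good (uu L c) :=
  ⟨ana_sub L c (fun h => h0 (cl_eq_zero.2 h)), wp_ne L c hc h0 (by tauto)⟩

/-- Torsion points. -/
def IsTor (L : PeriodPair) (y : ℂ) : Prop := ∃ N : ℕ, 0 < N ∧ cl L (N * y) = 0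

theorem IsTor.sub {L : PeriodPair} {a b : ℂ} (ha : IsTor L a) (hb : IsTor L b) :
    IsTor L (a - b) := by
  obtain ⟨M, hM, h1⟩ := ha
  obtain ⟨N, hN, h2⟩ := hb
  refine ⟨M * N, Nat.mul_pos hM hN, ?_⟩
  have h3 : ((M * N : ℕ) : ℂ) * (a - b) = (N : ℂ) * ((M : ℂ) * a) - (M : ℂ) * ((N : ℂ) * b) := by
    push_cast
    ring
  rw [h3, cl_sub, cl_nmul N, h1, cl_nmul M, h2]
  simp

theorem IsTor.neg {L : PeriodPair} {b : ℂ} (hb : IsTor L b) : IsTor L (-b) := by
  obtain ⟨N, hN, h2⟩ := hb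
  refine ⟨N, hN, ?_⟩
  rw [mul_neg, cl_neg, h2, neg_zero]

theorem IsTor.add {L : PeriodPair} {a b : ℂ} (ha : IsTor L a) (hb : IsTor L b) :
    IsTor L (a + b) := by
  have := ha.sub hb.neg
  rwa [sub_neg_eq_add] at this

theorem IsTor.congr {L : PeriodPair} {a b : ℂ} (ha : IsTor L a) (h : cl L b = cl L a) :
    IsTor L b := by
  obtain ⟨N, hN, h1⟩ := ha
  refine ⟨N, hN, ?_⟩
  rw [cl_nmul, h, ← cl_nmul, h1]

theorem isTor_zero {L : PeriodPair} : IsTor L 0 :=
  ⟨1, one_pos, by rw [mul_zero]; exact cl_eq_zero.2 L.lattice.zero_mem⟩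

theorem cl_zero {L : PeriodPair} : cl L 0 = 0 := cl_eq_zero.2 L.lattice.zero_mem

theorem ne_of_not_tor {L : PeriodPair} {z x : ℂ} (hz : ¬ IsTor L z) (hx : IsTor L x) :
    cl L z ≠ cl L x := fun h => hz (hx.congr h)

theorem ne_zero_of_not_tor {L : PeriodPair} {z : ℂ} (hz : ¬ IsTor L z) : cl L z ≠ 0 := by
  have := ne_of_not_tor hz isTor_zero
  rwa [cl_zero] at this

theorem IsTor.nmul {L : PeriodPair} {a : ℂ} (ha : IsTor L a) (n : ℕ) : IsTor L (n * a) := by
  obtain ⟨N, hN, h1⟩ := ha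
  refine ⟨N, hN, ?_⟩
  have : (N : ℂ) * ((n : ℂ) * a) = (n : ℂ) * ((N : ℂ) * a) := by ring
  rw [this, cl_nmul, h1, smul_zero]

theorem good_uu_tor {L : PeriodPair} {c : ℂ} (hc : 2 • cl L c ≠ 0) (hct : IsTor L c) {z : ℂ}
    (h0 : ¬ IsTor L z) : z ∈ good (uu L c) := by
  refine good_uu hc (ne_zero_of_not_tor h0) (ne_of_not_tor h0 hct) ?_
  rw [← cl_neg]
  exact ne_of_not_tor h0 hct.neg

/-- `h` has the divisor `M ((y) - (0))` and is good outside the torsion points. -/
def HasDiv (L : PeriodPair) (y : ℂ) (M : ℕ) (h : ℂ → ℂ) : Prop :=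
  0 < M ∧ IsElliptic L h ∧ (∀ z, ordZ h z = M * (chi L (z - y) - chi L z)) ∧
    ∀ z, ¬ IsTor L z → z ∈ good h

theorem chi_congr {L : PeriodPair} {z w : ℂ} (h : cl L z = cl L w) : chi L z = chi L w := by
  unfold chi
  rw [h]

theorem hasDiv_of {L : PeriodPair} {y : ℂ} (hy : 2 • cl L y ≠ 0) {N : ℕ} (hN : 0 < N)
    (hNy : cl L (N * y) = 0) : ∃ h, HasDiv L y N h := by
  obtain ⟨n, rfl⟩ : ∃ n, N = n + 1 := ⟨N - 1, by omega⟩
  set F : ℕ → ℂ → ℂ := fun k z => uu L y (z - ((k : ℂ) + 1) * y) ^ ((k : ℤ) + 1 - (n + 1 : ℕ))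
    with hF
  have hFe : ∀ k, IsElliptic L (F k) := fun k =>
    IsElliptic.zpow ((isElliptic_uu hy).trans (((k : ℂ) + 1) * y)) _
  have hyt : IsTor L y := ⟨n + 1, hN, hNy⟩
  refine ⟨fun z => ∏ k ∈ Finset.range n, F k z, hN, isElliptic_prod F hFe, fun z => ?_,
    fun z hz => ?_⟩
  swap
  · refine good_prod F fun k => good_zpow (good_trans (good_uu_tor hy hyt ?_)) _
    intro h
    apply hz
    have h1 := h.add (hyt.nmul (k + 1))
    have h2 : z - ((k : ℂ) + 1) * y + ((k + 1 : ℕ) : ℂ) * y = z := by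
      push_cast
      ring
    rwa [h2] at h1
  rw [ordZ_prod F hFe]
  have h1 : ∀ k, ordZ (F k) z = ((k : ℤ) + 1 - (n + 1 : ℕ)) *
      (chi L (z - ((k + 2 : ℕ) : ℂ) * y) + chi L (z - (k : ℂ) * y) -
        2 * chi L (z - ((k + 1 : ℕ) : ℂ) * y)) := by
    intro k
    simp only [hF]
    rw [ordZ_zpow ((isElliptic_uu hy).trans (((k : ℂ) + 1) * y)), ordZ_trans, ordZ_uu hy]
    have e1 : z - ((k : ℂ) + 1) * y - y = z - ((k + 2 : ℕ) : ℂ) * y := by
      push_cast
      ring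
    have e2 : z - ((k : ℂ) + 1) * y + y = z - (k : ℂ) * y := by ring
    have e3 : z - ((k : ℂ) + 1) * y = z - ((k + 1 : ℕ) : ℂ) * y := by
      push_cast
      ring
    rw [e1, e2, e3]
  simp only [h1]
  rw [sum_identity ((n + 1 : ℕ) : ℤ) (fun j => chi L (z - (j : ℂ) * y)) n]
  have h2 : chi L (z - ((n + 1 : ℕ) : ℂ) * y) = chi L z := by
    refine chi_congr ?_
    rw [cl_sub, hNy, sub_zero]
  rw [h2]
  simp only [Nat.cast_one, one_mul, Nat.cast_zero, zero_mul, sub_zero]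
  push_cast
  ring

theorem HasDiv.add {L : PeriodPair} {a b : ℂ} {M N : ℕ} {f g : ℂ → ℂ} (hf : HasDiv L a M f)
    (hg : HasDiv L b N g) (ha : IsTor L a) : ∃ h, HasDiv L (a + b) (M * N) h := by
  refine ⟨fun z => f z ^ (N : ℤ) * g (z - a) ^ (M : ℤ), Nat.mul_pos hf.1 hg.1,
    (hf.2.1.zpow N).mul ((hg.2.1.trans a).zpow M), fun z => ?_, fun z hz => ?_⟩
  swap
  · refine good_mul (good_zpow (hf.2.2.2 z hz) _) (good_zpow (good_trans (hg.2.2.2 _ ?_)) _)
    intro h
    apply hz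
    have h1 := h.add ha
    rwa [sub_add_cancel] at h1
  rw [ordZ_mul (hf.2.1.zpow N) ((hg.2.1.trans a).zpow M), ordZ_zpow hf.2.1,
    ordZ_zpow (hg.2.1.trans a), ordZ_trans, hf.2.2.1, hg.2.2.1]
  have h1 : z - a - b = z - (a + b) := by ring
  rw [h1]
  push_cast
  ring

end Pool.Agent.J4.H64.EK
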