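import Pool.Agent.J4.H64.EK.Ann

/-!
# Density of the regulator for open elliptic curves
-/

set_option autoImplicit false

open Filter Topology H4EP MeasureTheory Set

namespace Pool.Agent.J4.H64.EK

/-- Where the functions of the symbols may have zeros and poles. -/
def AA (L : PeriodPair) (s0 : ℂ) (S : Finset ℂ) : Set ℂ :=
  {z | IsTor L (z - s0) ∨ ∃ s ∈ S, cl L (z - s0) = cl L (s - s0) ∨
    cl L (z - s0) = - cl L (s - s0)}

theorem AA_mono {L : PeriodPair} {s0 : ℂ} {S T : Finset ℂ} (h : S ⊆ T) :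
    AA L s0 S ⊆ AA L s0 T := by
  rintro z (hz | ⟨s, hs, hz⟩)
  · exact Or.inl hz
  · exact Or.inr ⟨s, h hs, hz⟩

/-- Rational approximation. -/
theorem rat_approx {l x ε : ℝ} (hl : l ≠ 0) (hε : 0 < ε) :
    ∃ (d : ℕ) (n : ℤ), 0 < d ∧ |(n : ℝ) / d * l - x| < ε := by
  have c1 : Continuous (fun q : ℝ => |q * l - x|) := by fun_prop
  have hopen : IsOpen {q : ℝ | |q * l - x| < ε} := isOpen_lt c1 continuous_const
  have hne : ({q : ℝ | |q * l - x| < ε}).Nonempty := by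
    refine ⟨x / l, ?_⟩
    have : x / l * l = x := div_mul_cancel₀ x hl
    simp only [mem_ofPred_eq]
    rw [this, sub_self, abs_zero]
    exact hε
  obtain ⟨q, hq⟩ := (Rat.denseRange_cast (𝕜 := ℝ)).exists_mem_open hopen hne
  refine ⟨q.den, q.num, q.den_pos, ?_⟩
  have h1 : (q : ℝ) = (q.num : ℝ) / (q.den : ℝ) := by exact_mod_cast (Rat.num_div_den q).symm
  have h2 : |(q : ℝ) * l - x| < ε := hq
  rwa [h1] at h2

theorem log_tame_combo {L : PeriodPair} {ξ η : Sym2K} (hξ : Ell L ξ) (hη : Ell L η) (m n : ℤ)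
    (z : ℂ) : Real.log ‖tameS (smulS m ξ ++ smulS n η) z‖ =
      m * Real.log ‖tameS ξ z‖ + n * Real.log ‖tameS η z‖ := by
  rw [tameS_append, tameS_smulS, tameS_smulS, norm_mul, norm_zpow, norm_zpow,
    Real.log_mul (zpow_ne_zero _ (norm_ne_zero_iff.2 (tameS_ne_zero hξ z)))
      (zpow_ne_zero _ (norm_ne_zero_iff.2 (tameS_ne_zero hη z))), Real.log_zpow, Real.log_zpow]

/-- The residues. -/
theorem residues (L : PeriodPair) (s0 : ℂ) (r : ℂ → ℝ) {ε : ℝ} (hε : 0 < ε) (S : Finset ℂ) :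
    (∀ s ∈ S, cl L s ≠ cl L s0) → (∀ s ∈ S, ∀ t ∈ S, cl L s = cl L t → s = t) →
    ∃ (D : ℕ) (ξ : Sym2K), 0 < D ∧ Ell L ξ ∧ Supp (AA L s0 S) ξ ∧
      (∀ z, cl L z ≠ cl L s0 → (∀ s ∈ S, cl L z ≠ cl L s) → tameS ξ z = 1) ∧
      ∀ s ∈ S, |Real.log ‖tameS ξ s‖ / D - r s| < ε := by
  classical
  induction S using Finset.induction_on with
  | empty =>
    intro _ _
    exact ⟨1, [], one_pos, by simp [Ell], by simp [Supp], fun _ _ _ => rfl, by simp⟩
  | insert s S hsS ih =>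
    intro h1 h2
    obtain ⟨D, ξ, hD, hE, hSu, ht, hr⟩ := ih (fun t ht => h1 t (Finset.mem_insert_of_mem ht))
      (fun t ht t' ht' => h2 t (Finset.mem_insert_of_mem ht) t' (Finset.mem_insert_of_mem ht'))
    have hs0 : cl L s ≠ cl L s0 := h1 s (Finset.mem_insert_self _ _)
    have hP : cl L (s - s0) ≠ 0 := by
      rw [cl_sub, sub_ne_zero]
      exact hs0
    have hsT : ∀ t ∈ S, cl L s ≠ cl L t := by
      intro t ht h
      have := h2 s (Finset.mem_insert_self _ _) t (Finset.mem_insert_of_mem ht) h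
      exact hsS (this ▸ ht)
    obtain ⟨η0, g1, g2, g3, g4⟩ := exists_pair hP
    set η : Sym2K := trS s0 η0 with hη
    have hEη : Ell L η := g1.trS s0
    have htη : ∀ z, cl L z ≠ cl L s → cl L z ≠ cl L s0 → tameS η z = 1 := by
      intro z hz1 hz2
      rw [hη, tameS_trS]
      refine g2 _ ?_ ?_
      · rw [cl_sub, cl_sub]
        intro h
        exact hz1 (sub_left_injective h)
      · rw [cl_sub, sub_ne_zero]
        exact hz2
    have hSuη : Supp (AA L s0 (insert s S)) η := by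
      refine g4.trS s0 ?_
      intro z hz
      rcases hz with hz | hz
      · exact Or.inl hz
      · exact Or.inr ⟨s, Finset.mem_insert_self _ _, hz⟩
    have hl : Real.log ‖tameS η s‖ ≠ 0 := by
      rw [hη, tameS_trS]
      have h3 : ‖tameS η0 (s - s0)‖ ≠ 0 := norm_ne_zero_iff.2 (tameS_ne_zero g1 _)
      intro h4
      rw [Real.log_eq_zero] at h4
      rcases h4 with h4 | h4 | h4
      · exact h3 h4
      · exact g3 h4
      · have := norm_nonneg (tameS η0 (s - s0))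
        linarith
    have hD0 : (D : ℝ) ≠ 0 := by exact_mod_cast hD.ne'
    obtain ⟨d, n, hd, hdn⟩ := rat_approx (l := Real.log ‖tameS η s‖ / D) (x := r s)
      (div_ne_zero hl hD0) hε
    have hd0 : (d : ℝ) ≠ 0 := by exact_mod_cast hd.ne'
    refine ⟨D * d, smulS d ξ ++ smulS n η, Nat.mul_pos hD hd,
      (hE.smulS _).append (hEη.smulS _),
      ((hSu.mono (AA_mono (Finset.subset_insert _ _))).smulS _).append (hSuη.smulS _), ?_, ?_⟩
    · intro z hz1 hz2
      rw [tameS_append, tameS_smulS, tameS_smulS, ht z hz1 fun t ht =>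
        hz2 t (Finset.mem_insert_of_mem ht), htη z (hz2 s (Finset.mem_insert_self _ _)) hz1]
      simp
    · intro t htm
      rw [log_tame_combo hE hEη]
      rcases Finset.mem_insert.1 htm with rfl | htS
      · rw [ht t hs0 hsT]
        have e : ((d : ℤ) * Real.log ‖(1 : ℂ)‖ + n * Real.log ‖tameS η t‖) / ((D * d : ℕ) : ℝ) =
            (n : ℝ) / d * (Real.log ‖tameS η t‖ / D) := by
          rw [norm_one, Real.log_one]
          push_cast
          field_simp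
          ring
        rw [e]
        exact hdn
      · rw [htη t (fun h => hsT t htS h.symm) (h1 t htm)]
        have e : ((d : ℤ) * Real.log ‖tameS ξ t‖ + n * Real.log ‖(1 : ℂ)‖) / ((D * d : ℕ) : ℝ) =
            Real.log ‖tameS ξ t‖ / D := by
          rw [norm_one, Real.log_one]
          push_cast
          field_simp
          ring
        rw [e]
        exact hr t htS

theorem KK_trS {L : PeriodPair} {η : Sym2K} (h : KK L η) (s0 : ℂ) (S : Finset ℂ) :
    Ell L (trS s0 η) ∧ (∀ z, tameS (trS s0 η) z = 1) ∧ Supp (AA L s0 S) (trS s0 η) :=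
  ⟨h.1.trS s0, fun z => by rw [tameS_trS, h.2.1], h.2.2.trS s0 fun _ hz => Or.inl hz⟩

/-- Density. -/
theorem density (L : PeriodPair) (s0 : ℂ) (S : Finset ℂ) (hS : ∀ s ∈ S, cl L s ≠ cl L s0)
    (hSi : ∀ s ∈ S, ∀ t ∈ S, cl L s = cl L t → s = t) (p : ℂ) (r : ℂ → ℝ) (x y : ℝ) {ε : ℝ}
    (hε : 0 < ε) :
    ∃ (D : ℕ) (ξ : Sym2K), 0 < D ∧ Ell L ξ ∧ Supp (AA L s0 S) ξ ∧
      (∀ z, cl L z ≠ cl L s0 → (∀ s ∈ S, cl L z ≠ cl L s) → tameS ξ z = 1) ∧
      (∀ s ∈ S, |Real.log ‖tameS ξ s‖ / D - r s| < ε) ∧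
      |reg ξ p L.ω₁ / D - x| < ε ∧ |reg ξ p L.ω₂ / D - y| < ε := by
  obtain ⟨D, ξ, hD, hE, hSu, ht, hr⟩ := residues L s0 r hε S hS hSi
  obtain ⟨M, η0, hM, hK, hx, hy⟩ := dense_KK L (p - s0) (x - reg ξ p L.ω₁ / D)
    (y - reg ξ p L.ω₂ / D) hε
  obtain ⟨k1, k2, k3⟩ := KK_trS hK s0 S
  have hD0 : (D : ℝ) ≠ 0 := by exact_mod_cast hD.ne'
  have hM0 : (M : ℝ) ≠ 0 := by exact_mod_cast hM.ne'
  refine ⟨D * M, smulS M ξ ++ smulS D (trS s0 η0), Nat.mul_pos hD hM,
    (hE.smulS _).append (k1.smulS _), (hSu.smulS _).append (k3.smulS _), ?_, ?_, ?_, ?_⟩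
  · intro z hz1 hz2
    rw [tameS_append, tameS_smulS, tameS_smulS, ht z hz1 hz2, k2]
    simp
  · intro s hs
    rw [log_tame_combo hE k1, k2]
    have e : ((M : ℤ) * Real.log ‖tameS ξ s‖ + (D : ℤ) * Real.log ‖(1 : ℂ)‖) /
        ((D * M : ℕ) : ℝ) = Real.log ‖tameS ξ s‖ / D := by
      rw [norm_one, Real.log_one]
      push_cast
      field_simp
      ring
    rw [e]
    exact hr s hs
  · rw [reg_append, reg_smulS, reg_smulS, reg_trS]
    have e : ((M : ℤ) * reg ξ p L.ω₁ + (D : ℤ) * reg η0 (p - s0) L.ω₁) / ((D * M : ℕ) : ℝ) - x =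
        reg η0 (p - s0) L.ω₁ / M - (x - reg ξ p L.ω₁ / D) := by
      push_cast
      field_simp
      ring
    rw [e]
    exact hx
  · rw [reg_append, reg_smulS, reg_smulS, reg_trS]
    have e : ((M : ℤ) * reg ξ p L.ω₂ + (D : ℤ) * reg η0 (p - s0) L.ω₂) / ((D * M : ℕ) : ℝ) - y =
        reg η0 (p - s0) L.ω₂ / M - (y - reg ξ p L.ω₂ / D) := by
      push_cast
      field_simp
      ring
    rw [e]
    exact hy

/-- Density for the projective curve. -/
theorem density0 (L : PeriodPair) (s0 p : ℂ) (x y : ℝ) {ε : ℝ} (hε : 0 < ε) :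
    ∃ (D : ℕ) (ξ : Sym2K), 0 < D ∧ Ell L ξ ∧ Supp (AA L s0 ∅) ξ ∧ (∀ z, tameS ξ z = 1) ∧
      |reg ξ p L.ω₁ / D - x| < ε ∧ |reg ξ p L.ω₂ / D - y| < ε := by
  obtain ⟨M, η0, hM, hK, hx, hy⟩ := dense_KK L (p - s0) x y hε
  obtain ⟨k1, k2, k3⟩ := KK_trS hK s0 ∅
  refine ⟨M, trS s0 η0, hM, k1, k3, k2, ?_, ?_⟩
  · rw [reg_trS]
    exact hx
  · rw [reg_trS]
    exact hy

end Pool.Agent.J4.H64.EK
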