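import Pool.Agent.J4.H64.EK.Tor

/-!
# The fundamental theorem of calculus along almost all lines
-/

set_option autoImplicit false

open Filter Topology H4EP MeasureTheory Set

namespace Pool.Agent.J4.H64.EK

/-- `log |f|`. -/
noncomputable def Lg (f : ℂ → ℂ) (z : ℂ) : ℝ := Real.log ‖f z‖

/-- The derivative of `log |f|` in the direction `v`. -/
noncomputable def Dv (v : ℂ) (f : ℂ → ℂ) (z : ℂ) : ℝ := (v * logDeriv f z).re

theorem deriv_per {L : PeriodPair} {f : ℂ → ℂ} (hf : IsElliptic L f) (z l : ℂ)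
    (hl : l ∈ L.lattice) : logDeriv f (z + l) = logDeriv f z := by
  rw [logDeriv_apply, logDeriv_apply, hf.per z l hl]
  congr 1
  have h1 : (fun w => f (w + l)) = f := by
    funext w
    exact hf.per w l hl
  have h2 := deriv_comp_add_const f l z
  rw [h1] at h2
  exact h2.symm

theorem per_Lg {L : PeriodPair} {f : ℂ → ℂ} (hf : IsElliptic L f) : Per L (Lg f) := by
  intro z l hl
  unfold Lg
  rw [hf.per z l hl]

theorem per_Dv {L : PeriodPair} {f : ℂ → ℂ} (hf : IsElliptic L f) (v : ℂ) : Per L (Dv v f) := by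
  intro z l hl
  unfold Dv
  rw [deriv_per hf z l hl]

theorem hasDerivAt_Lg {f : ℂ → ℂ} {z v : ℂ} {s : ℝ} (h : z + s * v ∈ good f) :
    HasDerivAt (fun t : ℝ => Lg f (z + t * v)) (Dv v f (z + s * v)) s := by
  have h1 : HasDerivAt (fun t : ℝ => z + (t : ℂ) * v) v s := by
    have h2 : HasDerivAt (fun t : ℝ => (t : ℂ)) 1 s := Complex.ofRealCLM.hasDerivAt
    have h3 := (h2.mul_const v).const_add z
    rwa [one_mul] at h3
  have h2 : HasDerivAt (fun t : ℝ => f (z + (t : ℂ) * v)) (deriv f (z + s * v) * v) s := by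
    have := HasDerivAt.comp s (h.1.differentiableAt.hasDerivAt) h1
    exact this
  have hne : f (z + s * v) ≠ 0 := h.2
  have h3 := h2.norm_sq
  have hpos : ‖f (z + s * v)‖ ^ 2 ≠ 0 := by
    have := norm_ne_zero_iff.2 hne
    positivity
  have h4 := h3.log hpos
  have h5 := h4.const_mul (1 / 2 : ℝ)
  have e1 : (fun t : ℝ => Lg f (z + t * v)) =
      fun t : ℝ => 1 / 2 * Real.log (‖f (z + (t : ℂ) * v)‖ ^ 2) := by
    funext t
    unfold Lg
    rw [Real.log_pow]
    push_cast
    ring
  rw [e1]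
  refine h5.congr_deriv ?_
  unfold Dv
  rw [logDeriv_apply, Complex.inner]
  have h6 : (v * (deriv f (z + s * v) / f (z + s * v))) =
      ((starRingEnd ℂ) (f (z + s * v)) * (deriv f (z + s * v) * v)) /
        ((‖f (z + s * v)‖ ^ 2 : ℝ) : ℂ) := by
    have h7 : ((‖f (z + s * v)‖ ^ 2 : ℝ) : ℂ) =
        (starRingEnd ℂ) (f (z + s * v)) * f (z + s * v) := by
      rw [← Complex.normSq_eq_norm_sq, Complex.normSq_eq_conj_mul_self]
    rw [h7]
    have h8 : (starRingEnd ℂ) (f (z + s * v)) ≠ 0 := (map_ne_zero _).2 hne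
    generalize (starRingEnd ℂ) (f (z + s * v)) = w' at h8 ⊢
    generalize f (z + s * v) = w at hne ⊢
    generalize deriv f (z + s * v) = d
    rw [mul_div_assoc', div_eq_div_iff hne (mul_ne_zero h8 hne)]
    ring
  rw [h6, Complex.div_ofReal_re]
  have h9 : (deriv f (z + s * v) * v * (starRingEnd ℂ) (f (z + s * v))) =
    (starRingEnd ℂ) (f (z + s * v)) * (deriv f (z + s * v) * v) := by ring
  rw [h9]
  field_simp

theorem continuousAt_Dv {f : ℂ → ℂ} {z : ℂ} (v : ℂ) (h : z ∈ good f) :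
    ContinuousAt (Dv v f) z := by
  have h1 : ContinuousAt (logDeriv f) z := by
    have : logDeriv f = fun z => deriv f z / f z := by
      funext z
      exact logDeriv_apply f z
    rw [this]
    exact (h.1.deriv.div h.1 h.2).continuousAt
  exact Complex.continuous_re.continuousAt.comp (continuousAt_const.mul h1)

theorem continuousAt_Lg {f : ℂ → ℂ} {z : ℂ} (h : z ∈ good f) : ContinuousAt (Lg f) z :=
  (h.1.continuousAt.norm).log (norm_ne_zero_iff.2 h.2)

theorem ftc {f : ℂ → ℂ} {z v : ℂ} (h : ∀ s : ℝ, z + s * v ∈ good f) (r : ℝ) :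
    ∫ s in (0 : ℝ)..r, Dv v f (z + s * v) = Lg f (z + r * v) - Lg f z := by
  have h1 : Continuous (fun s : ℝ => Dv v f (z + s * v)) := by
    rw [continuous_iff_continuousAt]
    intro s
    exact ContinuousAt.comp (f := fun s : ℝ => z + (s : ℂ) * v) (continuousAt_Dv v (h s))
      (by fun_prop)
  have h2 := intervalIntegral.integral_eq_sub_of_hasDerivAt (a := 0) (b := r)
    (f := fun s : ℝ => Lg f (z + s * v)) (fun s _ => hasDerivAt_Lg (h s))
    (h1.intervalIntegrable _ _)
  rw [h2]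
  simp

theorem ae_line (L : PeriodPair) {B : Set ℂ} (hB : B.Countable) (u : ℝ × ℝ) :
    ∀ᵐ x : ℝ × ℝ, ∀ s : ℝ, ee L (x + s • u) ∉ B := by
  have hnull : ∀ b ∈ B, (volume : Measure (ℝ × ℝ)) {x | ∃ s : ℝ, ee L (x + s • u) = b} = 0 := by
    intro b hb
    obtain ⟨y, hy⟩ := ee_surj L b
    set A : AffineSubspace ℝ (ℝ × ℝ) := AffineSubspace.mk' y (Submodule.span ℝ {u}) with hA
    refine measure_mono_null ?_ (Measure.addHaar_affineSubspace volume A ?_)
    · rintro x ⟨s, hs⟩
      rw [hA, SetLike.mem_coe, AffineSubspace.mem_mk', Submodule.mem_span_singleton]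
      refine ⟨-s, ?_⟩
      rw [← hy] at hs
      have h1 : ee L (x + s • u - y) = 0 := by rw [ee_sub, hs, sub_self]
      have h2 := ee_inj L _ h1
      rw [vsub_eq_sub, neg_smul]
      have h3 : x - y = (x + s • u - y) - s • u := by abel
      rw [h3, h2, zero_sub]
    · intro htop
      have h1 : A.direction = ⊤ := by rw [htop, AffineSubspace.direction_top]
      rw [hA, AffineSubspace.direction_mk'] at h1
      have h2 : Module.finrank ℝ (Submodule.span ℝ {u}) ≤ 1 := by
        have := finrank_span_le_card (R := ℝ) ({u} : Set (ℝ × ℝ))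
        simpa using this
      rw [h1, finrank_top] at h2
      have h3 : Module.finrank ℝ (ℝ × ℝ) = 2 := by simp
      omega
  have h1 : (volume : Measure (ℝ × ℝ)) (⋃ b ∈ B, {x | ∃ s : ℝ, ee L (x + s • u) = b}) = 0 :=
    (measure_biUnion_null_iff hB).2 hnull
  rw [ae_iff]
  refine measure_mono_null ?_ h1
  intro x hx
  simp only [mem_ofPred_eq, not_forall, not_not] at hx
  obtain ⟨s, hs⟩ := hx
  simp only [mem_iUnion, mem_ofPred_eq]
  exact ⟨_, hs, s, rfl⟩

theorem ee_smul (L : PeriodPair) (s : ℝ) (u : ℝ × ℝ) : ee L (s • u) = s * ee L u := by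
  unfold ee
  simp only [Prod.smul_fst, Prod.smul_snd, smul_eq_mul]
  push_cast
  ring

/-- For almost all points of the torus `log |f|` along the line in the direction `u` is the
primitive of its derivative. -/
theorem ae_ftc {L : PeriodPair} {f : ℂ → ℂ} (hf : IsElliptic L f) (u : ℝ × ℝ) :
    ∀ᵐ x ∂muT, ∀ r : ℝ, ∫ s in (0 : ℝ)..r, lift L (Dv (ee L u) f) (x + tt (s • u)) =
      lift L (Lg f) (x + tt (r • u)) - lift L (Lg f) x := by
  have h1 := ae_rho (ae_line L (countable_bad hf) u)
  filter_upwards [h1] with x hx r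
  have h2 : ∀ s : ℝ, ee L (rho x) + s * ee L u ∈ good f := by
    intro s
    have h3 := hx s
    rw [ee_add, ee_smul] at h3
    rw [mem_compl_iff, not_not] at h3
    exact h3
  simp only [lift_add (per_Dv hf _), lift_add (per_Lg hf), ee_smul]
  exact ftc h2 r

end Pool.Agent.J4.H64.EK
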