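import Pool.Agent.J4.H64.EK.Defs

/-!
# Local estimates for `log |f|` and `f' / f`
-/

set_option autoImplicit false

open Filter Topology H4EP MeasureTheory

namespace Pool.Agent.J4.H64.EK

theorem local_bound {f : ℂ → ℂ} {z0 : ℂ} (hf : MeromorphicAt f z0)
    (hne : meromorphicOrderAt f z0 ≠ ⊤) :
    ∃ C : ℝ, 0 ≤ C ∧ ∀ᶠ z in 𝓝[≠] z0, |Real.log ‖f z‖| ≤ C * (1 + |Real.log ‖z - z0‖|) ∧
      ‖logDeriv f z‖ ≤ C * (1 + ‖z - z0‖⁻¹) := by
  obtain ⟨g, hg, hg0, hfg⟩ := (meromorphicOrderAt_ne_top_iff hf).1 hne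
  set m : ℤ := (meromorphicOrderAt f z0).untop₀ with hm
  -- bounds for g
  have hgc : ContinuousAt (fun z => Real.log ‖g z‖) z0 :=
    (hg.continuousAt.norm).log (norm_ne_zero_iff.2 hg0)
  have hgl : AnalyticAt ℂ (logDeriv g) z0 := by
    have : logDeriv g = fun z => deriv g z / g z := by
      funext z
      exact logDeriv_apply g z
    rw [this]
    exact hg.deriv.div hg hg0
  have hb1 : ∀ᶠ z in 𝓝 z0, |Real.log ‖g z‖| < |Real.log ‖g z0‖| + 1 :=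
    hgc.abs.eventually (eventually_lt_nhds (lt_add_one _))
  have hb2 : ∀ᶠ z in 𝓝 z0, ‖logDeriv g z‖ < ‖logDeriv g z0‖ + 1 :=
    hgl.continuousAt.norm.eventually (eventually_lt_nhds (lt_add_one _))
  have hb3 : ∀ᶠ z in 𝓝 z0, g z ≠ 0 := hg.continuousAt.eventually_ne hg0
  have hb4 : ∀ᶠ z in 𝓝 z0, DifferentiableAt ℂ g z :=
    hg.eventually_analyticAt.mono fun z hz => hz.differentiableAt
  have hloc : ∀ᶠ z in 𝓝[≠] z0, f =ᶠ[𝓝 z] fun w => (w - z0) ^ m • g w := by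
    have h1 := eventually_eventually_nhdsWithin.2 hfg
    filter_upwards [h1, self_mem_nhdsWithin] with z hz hz'
    have h2 : 𝓝[≠] z0 ≤ 𝓝[≠] z0 := le_rfl
    have h3 : (𝓝[{z0}ᶜ] z) = 𝓝 z := isOpen_compl_singleton.nhdsWithin_eq hz'
    rw [h3] at hz
    exact hz
  refine ⟨|(m : ℝ)| + (|Real.log ‖g z0‖| + 1) + (‖logDeriv g z0‖ + 1), by positivity, ?_⟩
  filter_upwards [hloc, hb1.filter_mono nhdsWithin_le_nhds, hb2.filter_mono nhdsWithin_le_nhds,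
    hb3.filter_mono nhdsWithin_le_nhds, hb4.filter_mono nhdsWithin_le_nhds,
    self_mem_nhdsWithin] with z h1 h2 h3 h4 h5 h6
  have hz : z - z0 ≠ 0 := sub_ne_zero.2 h6
  have hz' : ‖z - z0‖ ≠ 0 := norm_ne_zero_iff.2 hz
  have hpos : 0 < ‖z - z0‖ := norm_pos_iff.2 hz
  have hfz : f z = (z - z0) ^ m * g z := h1.eq_of_nhds
  have e1 : Real.log ‖f z‖ = m * Real.log ‖z - z0‖ + Real.log ‖g z‖ := by
    rw [hfz, norm_mul, norm_zpow, Real.log_mul (zpow_ne_zero _ hz') (norm_ne_zero_iff.2 h4),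
      Real.log_zpow]
  have e2 : logDeriv f z = m * (z - z0)⁻¹ + logDeriv g z := by
    have h7 : logDeriv f z = logDeriv (fun w => (w - z0) ^ m * g w) z := by
      rw [logDeriv_apply, logDeriv_apply]
      have h8 : f =ᶠ[𝓝 z] fun w => (w - z0) ^ m * g w := h1
      rw [h8.deriv_eq, h8.eq_of_nhds]
    rw [h7, logDeriv_mul (f := fun w => (w - z0) ^ m) z (zpow_ne_zero _ hz) h4
      ((differentiableAt_id.sub_const z0).zpow (Or.inl hz)) h5]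
    congr 1
    rw [logDeriv_fun_zpow (by fun_prop)]
    congr 1
    rw [logDeriv_apply]
    simp
  have hA : 0 ≤ |Real.log ‖z - z0‖| := abs_nonneg _
  have hB : 0 ≤ ‖z - z0‖⁻¹ := by positivity
  have hm0 : 0 ≤ |(m : ℝ)| := abs_nonneg _
  have hg1 : 0 ≤ |Real.log ‖g z0‖| := abs_nonneg _
  have hg2 : 0 ≤ ‖logDeriv g z0‖ := norm_nonneg _
  constructor
  · rw [e1]
    refine (abs_add_le _ _).trans ?_
    rw [abs_mul]
    nlinarith [mul_nonneg hg1 hA, mul_nonneg hg2 hA]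
  · rw [e2]
    refine (norm_add_le _ _).trans ?_
    rw [norm_mul, norm_inv]
    have : ‖(m : ℂ)‖ = |(m : ℝ)| := by
      rw [← Complex.ofReal_intCast, Complex.norm_real, Real.norm_eq_abs]
    rw [this]
    nlinarith [mul_nonneg hg1 hB, mul_nonneg hg2 hB]

/-- `|F|^p` is at most a constant times `|z - z0|^(-3/2)` near every point. -/
def Mild (p : ℝ) (F : ℂ → ℝ) : Prop :=
  ∀ z0, ∃ C : ℝ, ∀ᶠ z in 𝓝[≠] z0, ‖F z‖ ^ p ≤ C * ‖z - z0‖ ^ (-(3 / 2) : ℝ)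

theorem tendsto_norm_sub (z0 : ℂ) : Tendsto (fun z => ‖z - z0‖) (𝓝[≠] z0) (𝓝[>] 0) := by
  refine tendsto_nhdsWithin_iff.2 ⟨?_, ?_⟩
  · have : Tendsto (fun z => ‖z - z0‖) (𝓝 z0) (𝓝 ‖z0 - z0‖) :=
      (Continuous.tendsto (by fun_prop) z0)
    rw [sub_self, norm_zero] at this
    exact this.mono_left nhdsWithin_le_nhds
  · filter_upwards [self_mem_nhdsWithin] with z hz
    exact norm_pos_iff.2 (sub_ne_zero.2 hz)

theorem mild_log {f : ℂ → ℂ} (hf : ∀ z, MeromorphicAt f z)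
    (hne : ∀ z, meromorphicOrderAt f z ≠ ⊤) : Mild 4 (fun z => Real.log ‖f z‖) := by
  intro z0
  obtain ⟨C, hC, hb⟩ := local_bound (hf z0) (hne z0)
  refine ⟨(C * 2) ^ (4 : ℝ), ?_⟩
  have h0 : Tendsto (fun x : ℝ => Real.log x * x ^ ((3 / 8 : ℝ))) (𝓝[>] 0) (𝓝 0) :=
    tendsto_log_mul_rpow_nhdsGT_zero (by norm_num)
  have h1 : ∀ᶠ x : ℝ in 𝓝[>] 0, |Real.log x * x ^ ((3 / 8 : ℝ))| < 1 := by
    have := h0.abs
    rw [abs_zero] at this
    exact this.eventually (eventually_lt_nhds one_pos)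
  have h2 : ∀ᶠ x : ℝ in 𝓝[>] 0, x < 1 :=
    (eventually_lt_nhds one_pos).filter_mono nhdsWithin_le_nhds
  have h3 := (tendsto_norm_sub z0).eventually (h1.and h2)
  filter_upwards [hb, h3, self_mem_nhdsWithin] with z h4 h5 h6
  have hpos : 0 < ‖z - z0‖ := norm_pos_iff.2 (sub_ne_zero.2 h6)
  set ρ := ‖z - z0‖ with hρ
  have h7 : |Real.log ρ| ≤ ρ ^ (-(3 / 8) : ℝ) := by
    have h8 := h5.1.le
    rw [abs_mul, abs_of_pos (Real.rpow_pos_of_pos hpos _)] at h8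
    rw [Real.rpow_neg hpos.le, ← one_div, le_div_iff₀ (Real.rpow_pos_of_pos hpos _)]
    exact h8
  have h9 : (1 : ℝ) ≤ ρ ^ (-(3 / 8) : ℝ) :=
    Real.one_le_rpow_of_pos_of_le_one_of_nonpos hpos h5.2.le (by norm_num)
  have h10 : ‖Real.log ‖f z‖‖ ≤ (C * 2) * ρ ^ (-(3 / 8) : ℝ) := by
    rw [Real.norm_eq_abs]
    refine h4.1.trans ?_
    nlinarith
  calc ‖Real.log ‖f z‖‖ ^ (4 : ℝ) ≤ ((C * 2) * ρ ^ (-(3 / 8) : ℝ)) ^ (4 : ℝ) :=
        Real.rpow_le_rpow (norm_nonneg _) h10 (by norm_num)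
    _ = (C * 2) ^ (4 : ℝ) * ρ ^ (-(3 / 2) : ℝ) := by
        rw [Real.mul_rpow (by positivity) (Real.rpow_nonneg hpos.le _), ← Real.rpow_mul hpos.le]
        norm_num

theorem mild_deriv {f : ℂ → ℂ} (hf : ∀ z, MeromorphicAt f z)
    (hne : ∀ z, meromorphicOrderAt f z ≠ ⊤) (v : ℂ) :
    Mild (4 / 3) (fun z => (v * logDeriv f z).re) := by
  intro z0
  obtain ⟨C, hC, hb⟩ := local_bound (hf z0) (hne z0)
  refine ⟨(‖v‖ * (C * 2)) ^ (4 / 3 : ℝ), ?_⟩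
  have h2 : ∀ᶠ x : ℝ in 𝓝[>] 0, x < 1 :=
    (eventually_lt_nhds one_pos).filter_mono nhdsWithin_le_nhds
  have h3 := (tendsto_norm_sub z0).eventually h2
  filter_upwards [hb, h3, self_mem_nhdsWithin] with z h4 h5 h6
  have hpos : 0 < ‖z - z0‖ := norm_pos_iff.2 (sub_ne_zero.2 h6)
  set ρ := ‖z - z0‖ with hρ
  have h9 : (1 : ℝ) ≤ ρ⁻¹ := (one_le_inv₀ hpos).2 h5.le
  have h10 : ‖(v * logDeriv f z).re‖ ≤ (‖v‖ * (C * 2)) * ρ⁻¹ := by
    refine (Complex.abs_re_le_norm _).trans ?_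
    rw [norm_mul, mul_assoc]
    refine mul_le_mul_of_nonneg_left (h4.2.trans ?_) (norm_nonneg _)
    nlinarith
  calc ‖(v * logDeriv f z).re‖ ^ (4 / 3 : ℝ) ≤ ((‖v‖ * (C * 2)) * ρ⁻¹) ^ (4 / 3 : ℝ) :=
        Real.rpow_le_rpow (norm_nonneg _) h10 (by norm_num)
    _ = (‖v‖ * (C * 2)) ^ (4 / 3 : ℝ) * ρ ^ (-(4 / 3) : ℝ) := by
        rw [Real.mul_rpow (by positivity) (by positivity), ← Real.rpow_neg_one,
          ← Real.rpow_mul hpos.le]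
        norm_num
    _ ≤ (‖v‖ * (C * 2)) ^ (4 / 3 : ℝ) * ρ ^ (-(3 / 2) : ℝ) := by
        refine mul_le_mul_of_nonneg_left ?_ (by positivity)
        exact Real.rpow_le_rpow_of_exponent_ge hpos h5.le (by norm_num)

end Pool.Agent.J4.H64.EK
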