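import Pool.Agent.J4.H64.EK.Loc

/-!
# Local integrability in coordinates and the torus
-/

set_option autoImplicit false

open Filter Topology H4EP MeasureTheory Set

namespace Pool.Agent.J4.H64.EK

theorem isOpen_good (f : ℂ → ℂ) : IsOpen (good f) := by
  rw [isOpen_iff_mem_nhds]
  rintro z ⟨h1, h2⟩
  filter_upwards [h1.eventually_analyticAt, h1.continuousAt.eventually_ne h2] with w h3 h4
  exact ⟨h3, h4⟩

theorem countable_bad {L : PeriodPair} {f : ℂ → ℂ} (hf : IsElliptic L f) :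
    (good f)ᶜ.Countable := by
  have h1 : {z | AnalyticAt ℂ f z}ᶜ.Countable := Meromorphic.countable_compl_analyticAt hf.mero
  have h2 : {z | AnalyticAt ℂ f⁻¹ z}ᶜ.Countable :=
    Meromorphic.countable_compl_analyticAt (fun z => (hf.mero z).inv)
  refine (h1.union h2).mono ?_
  intro z hz
  by_contra hcon
  rw [mem_union, not_or] at hcon
  obtain ⟨h3, h4⟩ := hcon
  rw [mem_compl_iff, not_not] at h3 h4
  apply hz
  refine ⟨h3, fun h0 => ?_⟩
  have h5 : 0 < meromorphicOrderAt f z := by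
    have hne := hf.ne_top z
    rw [h3.meromorphicOrderAt_eq] at hne ⊢
    have h6 : analyticOrderAt f z ≠ 0 := by
      rw [h3.analyticOrderAt_ne_zero]
      exact h0
    cases h7 : analyticOrderAt f z with
    | top =>
      rw [h7] at hne
      exact absurd rfl hne
    | coe n =>
      rw [h7] at h6
      have h8 : n ≠ 0 := by
        rintro rfl
        exact h6 rfl
      have h9 : (0 : WithTop ℤ) < ((n : ℤ) : WithTop ℤ) := by
        have : (0 : ℤ) < (n : ℤ) := by exact_mod_cast Nat.pos_of_ne_zero h8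
        exact_mod_cast this
      exact h9
  have h10 := h4.meromorphicOrderAt_nonneg
  rw [meromorphicOrderAt_inv] at h10
  rw [hf.ord] at h5 h10
  have h11 : 0 < ordZ f z := by exact_mod_cast h5
  have h12 : (-(ordZ f z : ℤ) : ℤ) ≥ 0 := by
    have : (-((ordZ f z : ℤ) : WithTop ℤ)) = ((-(ordZ f z) : ℤ) : WithTop ℤ) := rfl
    rw [this] at h10
    exact_mod_cast h10
  omega

theorem meas_log {L : PeriodPair} {f : ℂ → ℂ} (hf : IsElliptic L f) :
    Measurable (fun z => Real.log ‖f z‖) :=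
  (Meromorphic.measurable hf.mero).norm.log

theorem meas_der {L : PeriodPair} {f : ℂ → ℂ} (hf : IsElliptic L f) (v : ℂ) :
    Measurable (fun z => (v * logDeriv f z).re) := by
  have h1 : Measurable (logDeriv f) := by
    have : logDeriv f = fun z => deriv f z / f z := by
      funext z
      exact logDeriv_apply f z
    rw [this]
    exact (measurable_deriv f).div (Meromorphic.measurable hf.mero)
  exact Complex.measurable_re.comp (h1.const_mul v)

/-! ### coordinates -/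

/-- The point with the coordinates `x`. -/
def ee (L : PeriodPair) (x : ℝ × ℝ) : ℂ := x.1 * L.ω₁ + x.2 * L.ω₂

theorem ee_inj (L : PeriodPair) (x : ℝ × ℝ) (h : ee L x = 0) : x = 0 := by
  have h1 := LinearIndependent.pair_iff.1 L.indep x.1 x.2 (by
    rw [Complex.real_smul, Complex.real_smul]
    exact h)
  exact Prod.ext h1.1 h1.2

theorem ee_surj (L : PeriodPair) (z : ℂ) : ∃ x, ee L x = z := by
  have := L.basis.sum_repr z
  rw [Fin.sum_univ_two] at this
  refine ⟨(L.basis.repr z 0, L.basis.repr z 1), ?_⟩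
  simp only [PeriodPair.basis_zero, PeriodPair.basis_one, Complex.real_smul] at this
  exact this

/-- `ee` as a linear map. -/
def eeLin (L : PeriodPair) : (ℝ × ℝ) →ₗ[ℝ] ℂ where
  toFun := ee L
  map_add' x y := by
    unfold ee
    simp only [Prod.fst_add, Prod.snd_add]
    push_cast
    ring
  map_smul' c x := by
    unfold ee
    simp only [Prod.smul_fst, Prod.smul_snd, RingHom.id_apply, Complex.real_smul, smul_eq_mul]
    push_cast
    ring

/-- `ee` as a continuous linear equivalence. -/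
noncomputable def eeE (L : PeriodPair) : (ℝ × ℝ) ≃L[ℝ] ℂ :=
  (LinearEquiv.ofBijective (eeLin L) ⟨by
    rw [← LinearMap.ker_eq_bot, LinearMap.ker_eq_bot']
    exact ee_inj L, ee_surj L⟩).toContinuousLinearEquiv

theorem eeE_apply (L : PeriodPair) (x : ℝ × ℝ) : eeE L x = ee L x := rfl

theorem continuous_ee (L : PeriodPair) : Continuous (ee L) := (eeE L).continuous

theorem ee_add (L : PeriodPair) (x y : ℝ × ℝ) : ee L (x + y) = ee L x + ee L y :=
  (eeLin L).map_add x y

theorem ee_sub (L : PeriodPair) (x y : ℝ × ℝ) : ee L (x - y) = ee L x - ee L y :=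
  (eeLin L).map_sub x y

theorem exists_lower (L : PeriodPair) : ∃ K : ℝ, 0 < K ∧ ∀ x, ‖x‖ ≤ K * ‖ee L x‖ := by
  refine ⟨‖((eeE L).symm : ℂ →L[ℝ] (ℝ × ℝ))‖ + 1, by positivity, fun x => ?_⟩
  have h1 := ((eeE L).symm : ℂ →L[ℝ] (ℝ × ℝ)).le_opNorm (ee L x)
  have h2 : ((eeE L).symm : ℂ →L[ℝ] (ℝ × ℝ)) (ee L x) = x := by
    rw [← eeE_apply]
    exact (eeE L).symm_apply_apply x
  rw [h2] at h1
  refine h1.trans ?_
  have := norm_nonneg (ee L x)
  nlinarith

/-! ### local integrability -/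

theorem integrableOn_ball (x0 : ℝ × ℝ) (r : ℝ) :
    IntegrableOn (fun x : ℝ × ℝ => ‖x - x0‖ ^ (-(3 / 2) : ℝ)) (Metric.ball x0 r) := by
  have h1 : Integrable (fun x : ℝ × ℝ =>
      (Iio r).indicator (fun y : ℝ => y ^ (-(3 / 2) : ℝ)) ‖x‖) := by
    rw [integrable_fun_norm_addHaar]
    have hd : Module.finrank ℝ (ℝ × ℝ) = 2 := by simp
    rw [hd]
    have h2 : (fun y : ℝ => y ^ (2 - 1) • (Iio r).indicator (fun y : ℝ => y ^ (-(3 / 2) : ℝ)) y) =
        (Iio r).indicator (fun y : ℝ => y * y ^ (-(3 / 2) : ℝ)) := by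
      funext y
      by_cases hy : y ∈ Iio r
      · simp [indicator_of_mem hy]
      · simp [indicator_of_notMem hy]
    rw [h2]
    have h3 : IntegrableOn (fun y : ℝ => y ^ (-(1 / 2) : ℝ)) (Ioo 0 r) := by
      rcases le_or_gt r 0 with hr | hr
      · rw [Ioo_eq_empty (by linarith)]
        exact integrableOn_empty
      · have := intervalIntegral.intervalIntegrable_rpow' (a := 0) (b := r)
          (r := (-(1 / 2) : ℝ)) (by norm_num)
        rw [intervalIntegrable_iff_integrableOn_Ioo_of_le hr.le] at this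
        exact this
    have h4 : IntegrableOn (fun y : ℝ => y * y ^ (-(3 / 2) : ℝ)) (Ioo 0 r) := by
      refine h3.congr_fun (fun y hy => ?_) measurableSet_Ioo
      have hy0 : 0 < y := hy.1
      have : y ^ (-(1 / 2) : ℝ) = y ^ (1 : ℝ) * y ^ (-(3 / 2) : ℝ) := by
        rw [← Real.rpow_add hy0]
        norm_num
      simp only
      rw [this, Real.rpow_one]
    rw [integrableOn_indicator_iff measurableSet_Iio]
    have h5 : Iio r ∩ Ioi 0 = Ioo 0 r := by
      ext y
      simp only [mem_inter_iff, mem_Iio, mem_Ioi, mem_Ioo]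
      tauto
    rw [h5]
    exact h4
  have h6 := h1.comp_sub_right x0
  have h7 : IntegrableOn (fun x : ℝ × ℝ =>
      (Iio r).indicator (fun y : ℝ => y ^ (-(3 / 2) : ℝ)) ‖x - x0‖) (Metric.ball x0 r) :=
    h6.integrableOn
  refine h7.congr_fun (fun x hx => ?_) Metric.isOpen_ball.measurableSet
  simp only
  rw [indicator_of_mem]
  rw [Metric.mem_ball, dist_eq_norm] at hx
  exact hx

theorem locInt (L : PeriodPair) {F : ℂ → ℝ} (hF : Measurable F) {p : ℝ} (hm : Mild p F) :
    LocallyIntegrable (fun x : ℝ × ℝ => ‖F (ee L x)‖ ^ p) := by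
  intro x0
  obtain ⟨C, hC⟩ := hm (ee L x0)
  obtain ⟨K, hK, hlow⟩ := exists_lower L
  have h1 : Tendsto (ee L) (𝓝[≠] x0) (𝓝[≠] (ee L x0)) := by
    refine tendsto_nhdsWithin_iff.2 ⟨((continuous_ee L).tendsto x0).mono_left nhdsWithin_le_nhds, ?_⟩
    filter_upwards [self_mem_nhdsWithin] with x hx
    intro h
    apply hx
    have h2 : ee L (x - x0) = 0 := by
      rw [ee_sub, sub_eq_zero]
      exact h
    exact sub_eq_zero.1 (ee_inj L _ h2)
  have h2 := h1.eventually hC
  rw [eventually_nhdsWithin_iff] at h2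
  obtain ⟨r, hr, hball⟩ := Metric.eventually_nhds_iff_ball.1 h2
  refine ⟨Metric.ball x0 r, Metric.ball_mem_nhds x0 hr, ?_⟩
  have h3 : IntegrableOn (fun x : ℝ × ℝ => |C| * K ^ (3 / 2 : ℝ) * ‖x - x0‖ ^ (-(3 / 2) : ℝ))
      (Metric.ball x0 r) := (integrableOn_ball x0 r).const_mul _
  refine Integrable.mono' h3 ?_ ?_
  · exact ((hF.comp (continuous_ee L).measurable).norm.pow_const p).aestronglyMeasurable
  · have hne : ∀ᵐ x : ℝ × ℝ ∂(volume.restrict (Metric.ball x0 r)), x ≠ x0 := by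
      refine ae_restrict_of_ae ?_
      have : (volume : Measure (ℝ × ℝ)) {x0} = 0 := measure_singleton x0
      rw [ae_iff]
      simp
    filter_upwards [hne, ae_restrict_mem Metric.isOpen_ball.measurableSet] with x hx hxb
    have h4 := hball x hxb hx
    have hpos : 0 < ‖x - x0‖ := norm_pos_iff.2 (sub_ne_zero.2 hx)
    have h5 : ‖x - x0‖ / K ≤ ‖ee L x - ee L x0‖ := by
      rw [div_le_iff₀ hK, ← ee_sub, mul_comm]
      exact hlow _
    have h6 : ‖ee L x - ee L x0‖ ^ (-(3 / 2) : ℝ) ≤ (‖x - x0‖ / K) ^ (-(3 / 2) : ℝ) :=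
      Real.rpow_le_rpow_of_nonpos (by positivity) h5 (by norm_num)
    have h7 : (‖x - x0‖ / K) ^ (-(3 / 2) : ℝ) = K ^ (3 / 2 : ℝ) * ‖x - x0‖ ^ (-(3 / 2) : ℝ) := by
      rw [Real.div_rpow hpos.le hK.le, Real.rpow_neg hK.le, div_inv_eq_mul, mul_comm]
    have h8 : (0 : ℝ) ≤ ‖ee L x - ee L x0‖ ^ (-(3 / 2) : ℝ) := Real.rpow_nonneg (norm_nonneg _) _
    rw [Real.norm_eq_abs, abs_of_nonneg (Real.rpow_nonneg (norm_nonneg _) _)]
    calc ‖F (ee L x)‖ ^ p ≤ C * ‖ee L x - ee L x0‖ ^ (-(3 / 2) : ℝ) := h4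
      _ ≤ |C| * ‖ee L x - ee L x0‖ ^ (-(3 / 2) : ℝ) := by
          exact mul_le_mul_of_nonneg_right (le_abs_self C) h8
      _ ≤ |C| * (K ^ (3 / 2 : ℝ) * ‖x - x0‖ ^ (-(3 / 2) : ℝ)) := by
          rw [← h7]
          exact mul_le_mul_of_nonneg_left h6 (abs_nonneg _)
      _ = |C| * K ^ (3 / 2 : ℝ) * ‖x - x0‖ ^ (-(3 / 2) : ℝ) := by ring

/-- The square. -/
def sq : Set (ℝ × ℝ) := Ioc 0 1 ×ˢ Ioc 0 1

theorem sq_subset : sq ⊆ Icc 0 1 ×ˢ Icc 0 1 :=
  prod_mono Ioc_subset_Icc_self Ioc_subset_Icc_self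

theorem memLp_sq (L : PeriodPair) {F : ℂ → ℝ} (hF : Measurable F) {p : ENNReal} (hp0 : p ≠ 0)
    (hp : p ≠ ⊤) (hm : Mild p.toReal F) :
    MemLp (fun x : ℝ × ℝ => F (ee L x)) p (volume.restrict sq) := by
  have hmeas : AEStronglyMeasurable (fun x : ℝ × ℝ => F (ee L x)) (volume.restrict sq) :=
    (hF.comp (continuous_ee L).measurable).aestronglyMeasurable
  rw [← integrable_norm_rpow_iff hmeas hp0 hp]
  have h1 := (locInt L hF hm).integrableOn_isCompact (isCompact_Icc.prod isCompact_Icc)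
    (k := Icc (0 : ℝ) 1 ×ˢ Icc (0 : ℝ) 1)
  exact h1.mono_set sq_subset

end Pool.Agent.J4.H64.EK
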