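import Pool.Agent.J4.H64.EK.Defs

/-!
# Residues of symbols on open elliptic curves
-/

set_option autoImplicit false

open Filter Topology H4EP

namespace Pool.Agent.J4.H64.EK

variable {L : PeriodPair}

theorem cl_third_ne : cl L (L.ω₁ / 3) ≠ 0 := by
  intro h
  have h1 := cl_eq_zero.1 h
  have h2 := (PeriodPair.mul_ω₁_add_mul_ω₂_mem_lattice (L := L) (α := 1 / 3) (β := 0)).1 (by
    have : (((1 / 3 : ℚ) : ℂ) * L.ω₁ + ((0 : ℚ) : ℂ) * L.ω₂) = L.ω₁ / 3 := by
      push_cast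
      ring
    rw [this]
    exact h1)
  have h3 : (1 / 3 : ℚ).den = 3 := by norm_num
  omega

theorem three_third : 3 • cl L (L.ω₁ / 3) = 0 := by
  rw [← cl_nmul, cl_eq_zero]
  have : ((3 : ℕ) : ℂ) * (L.ω₁ / 3) = L.ω₁ := by
    push_cast
    ring
  rw [this]
  exact L.ω₁_mem_lattice

theorem isTor_third : IsTor L (L.ω₁ / 3) := ⟨3, by norm_num, by rw [cl_nmul, three_third]⟩

theorem two_third_ne : 2 • cl L (L.ω₁ / 3) ≠ 0 := by
  intro h
  have h1 : 3 • cl L (L.ω₁ / 3) = 2 • cl L (L.ω₁ / 3) + cl L (L.ω₁ / 3) := by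
    rw [← succ_nsmul]
  rw [three_third, h, zero_add] at h1
  exact cl_third_ne h1.symm

theorem exists_hasDiv {y : ℂ} (hy : IsTor L y) : ∃ (M : ℕ) (h : ℂ → ℂ), HasDiv L y M h := by
  have key : ∀ x : ℂ, IsTor L x → 2 • cl L x ≠ 0 → ∃ (M : ℕ) (h : ℂ → ℂ), HasDiv L x M h := by
    rintro x ⟨N, hN, h⟩ hx
    exact ⟨N, hasDiv_of hx hN h⟩
  by_cases h2 : 2 • cl L y = 0
  · obtain ⟨M, f, hf⟩ := key _ isTor_third (two_third_ne (L := L))
    obtain ⟨M', g, hg⟩ := key (y - L.ω₁ / 3) (hy.sub isTor_third) (by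
      rw [cl_sub, smul_sub, h2, zero_sub, neg_ne_zero]
      exact two_third_ne)
    obtain ⟨h, hh⟩ := hf.add hg isTor_third
    rw [add_sub_cancel] at hh
    exact ⟨_, h, hh⟩
  · exact key y hy h2

theorem tameS_cons_const {h : ℂ → ℂ} {κ : ℂ} (hκ : κ ≠ 0) (ξ : Sym2K) (z : ℂ) :
    tameS ((1, h, fun _ => κ) :: ξ) z = κ ^ (- ordZ h z) * tameS ξ z := by
  rw [tameS_cons, zpow_one, tame_const h hκ]

/-- Symbols `{f, κ}` with a constant `κ`, `f` good outside the torsion points. -/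
def Corr (L : PeriodPair) (η : Sym2K) : Prop :=
  ∀ t ∈ η, IsElliptic L t.2.1 ∧ (∀ z, ¬ IsTor L z → z ∈ good t.2.1) ∧
    ∃ κ : ℂ, κ ≠ 0 ∧ t.2.2 = fun _ => κ

/-- All functions of `ξ` are good outside `A`. -/
def Supp (A : Set ℂ) (ξ : Sym2K) : Prop :=
  ∀ t ∈ ξ, ∀ z, z ∉ A → z ∈ good t.2.1 ∧ z ∈ good t.2.2

theorem Supp.append {A : Set ℂ} {ξ η : Sym2K} (h1 : Supp A ξ) (h2 : Supp A η) :
    Supp A (ξ ++ η) := by
  intro t ht
  rcases List.mem_append.1 ht with ht | ht
  · exact h1 t ht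
  · exact h2 t ht

theorem Ell.append {ξ η : Sym2K} (h1 : Ell L ξ) (h2 : Ell L η) : Ell L (ξ ++ η) := by
  intro t ht
  rcases List.mem_append.1 ht with ht | ht
  · exact h1 t ht
  · exact h2 t ht

theorem Corr.ell {η : Sym2K} (h : Corr L η) : Ell L η := by
  intro t ht
  obtain ⟨h1, h2, κ, hκ, h3⟩ := h t ht
  refine ⟨h1, ?_⟩
  rw [h3]
  exact isElliptic_const L hκ

theorem Corr.supp {η : Sym2K} (h : Corr L η) {A : Set ℂ} (hA : ∀ z, IsTor L z → z ∈ A) :
    Supp A η := by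
  intro t ht z hz
  obtain ⟨h1, h2, κ, hκ, h3⟩ := h t ht
  refine ⟨h2 z fun h => hz (hA z h), ?_⟩
  rw [h3]
  exact good_const hκ z

/-- Residues at torsion points can be moved to `0`. -/
theorem moveT (W : List ℂ) (hW : ∀ R ∈ W, IsTor L R) (ξ : Sym2K) (hξ : Ell L ξ) :
    ∃ η : Sym2K, Corr L η ∧
      (∀ z, cl L z ≠ 0 → (∀ R ∈ W, cl L z ≠ cl L R) → tameS η z = 1) ∧
      (∀ R ∈ W, cl L R ≠ 0 → tameS (η ++ ξ) R = 1) := by
  induction W with
  | nil => exact ⟨[], by simp [Corr], fun _ _ _ => rfl, by simp⟩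
  | cons R W ih =>
    obtain ⟨η, h1, h2, h3⟩ := ih (fun R' hR' => hW R' (List.mem_cons_of_mem _ hR'))
    by_cases hR : cl L R = 0 ∨ ∃ R' ∈ W, cl L R = cl L R'
    · refine ⟨η, h1, fun z hz hz' => h2 z hz fun R' hR' => hz' R' (List.mem_cons_of_mem _ hR'),
        fun R'' hR'' h0 => ?_⟩
      rcases List.mem_cons.1 hR'' with rfl | hR''
      · rcases hR with hR | ⟨R', hR', hRR⟩
        · exact absurd hR h0
        · rw [tameS_per (h1.ell.append hξ) hRR]
          exact h3 R' hR' (by rwa [hRR] at h0)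
      · exact h3 R'' hR'' h0
    · rw [not_or] at hR
      obtain ⟨hR0, hRW⟩ := hR
      have hRt := hW R List.mem_cons_self
      obtain ⟨M, f, hM, hf, hdiv, hgood⟩ := exists_hasDiv hRt
      obtain ⟨κ, hκ⟩ := IsAlgClosed.exists_pow_nat_eq (tameS (η ++ ξ) R) hM
      have hκ0 : κ ≠ 0 := by
        rintro rfl
        rw [zero_pow hM.ne'] at hκ
        exact tameS_ne_zero (h1.ell.append hξ) R hκ.symm
      refine ⟨(1, f, fun _ => κ) :: η, ?_, ?_, ?_⟩
      · intro t ht
        rcases List.mem_cons.1 ht with rfl | ht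
        · exact ⟨hf, hgood, κ, hκ0, rfl⟩
        · exact h1 t ht
      · intro z hz hz'
        rw [tameS_cons_const hκ0, hdiv, chi_of_not hz, chi_of_not (by
          rw [cl_sub, sub_ne_zero]
          exact hz' R List.mem_cons_self)]
        rw [h2 z hz fun R' hR' => hz' R' (List.mem_cons_of_mem _ hR')]
        simp
      · intro R' hR' h0
        rw [List.cons_append, tameS_cons_const hκ0, hdiv, chi_of_not h0]
        rcases List.mem_cons.1 hR' with rfl | hR'
        · rw [sub_self, chi_of cl_zero, ← hκ, sub_zero, mul_one, zpow_neg, zpow_natCast]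
          exact inv_mul_cancel₀ (pow_ne_zero _ hκ0)
        · rw [chi_of_not (by
            rw [cl_sub, sub_ne_zero]
            intro h
            exact hRW ⟨R', hR', h.symm⟩), h3 R' hR' h0]
          simp

/-- Residues at torsion points can be moved to `0`. -/
theorem move {P : ℂ} (hP : ¬ IsTor L P) (W : List ℂ) (hW : ∀ R ∈ W, IsTor L R) {A : Set ℂ}
    (hA : ∀ z, IsTor L z → z ∈ A) (ξ : Sym2K) (hξ : Ell L ξ) (hs : Supp A ξ)
    (h : ∀ z, cl L z ≠ cl L P → cl L z ≠ 0 → (∀ R ∈ W, cl L z ≠ cl L R) → tameS ξ z = 1) :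
      ∃ ξ' : Sym2K, Ell L ξ' ∧ (∀ z, cl L z ≠ cl L P → cl L z ≠ 0 → tameS ξ' z = 1) ∧
        tameS ξ' P = tameS ξ P ∧ Supp A ξ' := by
  obtain ⟨η, h1, h2, h3⟩ := moveT W hW ξ hξ
  refine ⟨η ++ ξ, h1.ell.append hξ, fun z hz1 hz2 => ?_, ?_, (h1.supp hA).append hs⟩
  · by_cases hz : ∃ R ∈ W, cl L z = cl L R
    · obtain ⟨R, hR, hzR⟩ := hz
      rw [tameS_per (h1.ell.append hξ) hzR]
      exact h3 R hR (by rwa [hzR] at hz2)
    · have hz3 : ∀ R ∈ W, cl L z ≠ cl L R := fun R hR h => hz ⟨R, hR, h⟩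
      rw [tameS_append, h2 z hz2 hz3, h z hz1 hz2 hz3, one_mul]
  · rw [tameS_append, h2 P (ne_zero_of_not_tor hP) (fun R hR => ne_of_not_tor hP (hW R hR)),
      one_mul]

/-! ### density of the torsion points -/

theorem isTor_rat (q r : ℚ) : IsTor L ((q : ℂ) * L.ω₁ + (r : ℂ) * L.ω₂) := by
  refine ⟨q.den * r.den, Nat.mul_pos q.den_pos r.den_pos, ?_⟩
  rw [cl_eq_zero, PeriodPair.mem_lattice]
  refine ⟨q.num * r.den, r.num * q.den, ?_⟩
  have hq : (q : ℂ) = (q.num : ℂ) / (q.den : ℂ) := by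
    have := Rat.num_div_den q
    rw [← this]
    push_cast
    rw [Rat.num_div_den q]
  have hr : (r : ℂ) = (r.num : ℂ) / (r.den : ℂ) := by
    have := Rat.num_div_den r
    rw [← this]
    push_cast
    rw [Rat.num_div_den r]
  have hq0 : (q.den : ℂ) ≠ 0 := by exact_mod_cast q.den_nz
  have hr0 : (r.den : ℂ) ≠ 0 := by exact_mod_cast r.den_nz
  rw [hq, hr]
  push_cast
  field_simp

theorem dense_isTor : Dense {z : ℂ | IsTor L z} := by
  have h1 : DenseRange (fun x : ℚ × ℚ => ((x.1 : ℝ), (x.2 : ℝ))) :=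
    (Rat.denseRange_cast (𝕜 := ℝ)).prodMap (Rat.denseRange_cast (𝕜 := ℝ))
  have h2 : Function.Surjective (fun x : ℝ × ℝ => (x.1 : ℂ) * L.ω₁ + (x.2 : ℂ) * L.ω₂) := by
    intro z
    have := L.basis.sum_repr z
    rw [Fin.sum_univ_two] at this
    refine ⟨(L.basis.repr z 0, L.basis.repr z 1), ?_⟩
    simp only [PeriodPair.basis_zero, PeriodPair.basis_one, Complex.real_smul] at this
    exact this
  have h3 : Continuous (fun x : ℝ × ℝ => (x.1 : ℂ) * L.ω₁ + (x.2 : ℂ) * L.ω₂) := by fun_prop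
  have h4 := h2.denseRange.comp h1 h3
  refine h4.mono ?_
  rintro _ ⟨⟨q, r⟩, rfl⟩
  have := isTor_rat (L := L) q r
  simpa using this

/-! ### the main construction -/

theorem exists_symbol {P : ℂ} (hP : ¬ IsTor L P) :
    ∃ ξ : Sym2K, Ell L ξ ∧ (∀ z, cl L z ≠ cl L P → cl L z ≠ 0 → tameS ξ z = 1) ∧
      ‖tameS ξ P‖ ≠ 1 ∧
      Supp {z | IsTor L z ∨ cl L z = cl L P ∨ cl L z = - cl L P} ξ := by
  set c : ℂ := L.ω₁ / 3 with hc
  have hc2 : 2 • cl L c ≠ 0 := two_third_ne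
  have hc0 : cl L c ≠ 0 := cl_third_ne
  have hct : IsTor L c := isTor_third
  have hP0 : cl L P ≠ 0 := fun h => hP (isTor_zero.congr (by
      rw [h]
      exact (cl_eq_zero.2 L.lattice.zero_mem).symm))
  -- points that are torsion if `P` is
  have hdouble : ∀ x : ℂ, IsTor L x → cl L (2 * P) ≠ cl L x := by
    rintro x ⟨N, hN, hx⟩ h
    refine hP ⟨N * 2, by omega, ?_⟩
    have h1 : ((N * 2 : ℕ) : ℂ) * P = (N : ℂ) * (2 * P) := by
      push_cast
      ring
    rw [h1, cl_nmul, h, ← cl_nmul, hx]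
  have hP2 : 2 • cl L P ≠ 0 := by
    rw [← cl_nmul]
    have := hdouble 0 isTor_zero
    rw [cl_eq_zero.2 L.lattice.zero_mem] at this
    exact_mod_cast this
  -- the torsion point `Q`
  obtain ⟨Q, hQt, hQ⟩ : ∃ Q, IsTor L Q ∧ ‖uu L c (P - Q)‖ < ‖uu L c (-P - Q)‖ := by
    have hb0 : cl L (-P - (P - c)) ≠ 0 := by
      intro h
      refine hdouble c hct ?_
      have h1 : -P - (P - c) = c - 2 * P := by ring
      rw [h1, cl_sub, sub_eq_zero] at h
      exact h.symm
    have hbne : uu L c (-P - (P - c)) ≠ 0 := by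
      refine wp_ne L c hc2 hb0 ?_
      have h1 : -P - (P - c) = c - 2 * P := by ring
      rw [h1]
      rintro (h | h)
      · rw [cl_sub, sub_eq_self] at h
        refine hdouble 0 isTor_zero ?_
        rw [h]
        exact (cl_eq_zero.2 L.lattice.zero_mem).symm
      · refine hdouble (c + c) (hct.add hct) ?_
        rw [cl_sub] at h
        rw [cl_add]
        have : cl L (2 * P) = cl L c - (cl L c - cl L (2 * P)) := by abel
        rw [this, h]
        abel
    have hf : ContinuousAt (fun Q : ℂ => ‖uu L c (P - Q)‖) (P - c) := by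
      have h1 : ContinuousAt (uu L c) (P - (P - c)) := by
        rw [sub_sub_cancel]
        exact (ana_sub L c (fun h => hc0 (cl_eq_zero.2 h))).continuousAt
      exact (ContinuousAt.comp (f := fun Q : ℂ => P - Q) h1 (by fun_prop)).norm
    have hg : ContinuousAt (fun Q : ℂ => ‖uu L c (-P - Q)‖) (P - c) := by
      have h1 : ContinuousAt (uu L c) (-P - (P - c)) :=
        (ana_sub L c (fun h => hb0 (cl_eq_zero.2 h))).continuousAt
      exact (ContinuousAt.comp (f := fun Q : ℂ => -P - Q) h1 (by fun_prop)).norm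
    have hlt : ‖uu L c (P - (P - c))‖ < ‖uu L c (-P - (P - c))‖ := by
      rw [sub_sub_cancel]
      have : uu L c c = 0 := by
        unfold uu
        exact sub_self _
      rw [this, norm_zero]
      exact norm_pos_iff.2 hbne
    have hev : ∀ᶠ Q in 𝓝 (P - c), ‖uu L c (P - Q)‖ < ‖uu L c (-P - Q)‖ :=
      hf.eventually_lt hg hlt
    obtain ⟨Q, h1, h2⟩ := (dense_isTor (L := L)).inter_nhds_nonempty hev
    exact ⟨Q, h1, h2⟩
  have hg0 : uu L c (-P - Q) ≠ 0 := by
    rw [← norm_pos_iff]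
    exact lt_of_le_of_lt (norm_nonneg _) hQ
  -- `P - Q` and `- P - Q` are not torsion
  have hPQ : ∀ x, IsTor L x → cl L P ≠ cl L x := fun x hx h => hP (hx.congr h)
  have hPQ' : ∀ x, IsTor L x → cl L (-P) ≠ cl L x := fun x hx h => by
    have h1 := (hx.congr h).neg
    rw [neg_neg] at h1
    exact hP h1
  set g : ℂ → ℂ := fun z => uu L c (z - Q) * (uu L c (-P - Q))⁻¹ with hg
  have hgc : (uu L c (-P - Q))⁻¹ ≠ 0 := inv_ne_zero hg0
  have hge : IsElliptic L g := ((isElliptic_uu hc2).trans Q).mul (isElliptic_const L hgc)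
  have hgo : ∀ z, ordZ g z = chi L (z - (Q + c)) + chi L (z - (Q - c)) - 2 * chi L (z - Q) := by
    intro z
    rw [hg, ordZ_mul ((isElliptic_uu hc2).trans Q) (isElliptic_const L hgc), ordZ_const hgc,
      ordZ_trans, ordZ_uu hc2, add_zero]
    have e1 : z - Q - c = z - (Q + c) := by ring
    have e2 : z - Q + c = z - (Q - c) := by ring
    rw [e1, e2]
  have hfe : IsElliptic L (uu L P) := isElliptic_uu hP2
  have hPnP : cl L P ≠ cl L (-P) := by
    intro h
    rw [cl_neg] at h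
    exact hP2 (by rw [two_nsmul]; nth_rw 2 [h]; exact add_neg_cancel _)
  have hf1 : ordZ (uu L P) P = 1 := by
    rw [ordZ_uu hP2, sub_self, chi_of (cl_eq_zero.2 L.lattice.zero_mem), chi_of_not hP0,
      chi_of_not]
    · norm_num
    · rw [cl_add, ← two_nsmul]
      exact hP2
  have hf2 : ordZ (uu L P) (-P) = 1 := by
    rw [ordZ_uu hP2, neg_add_cancel, chi_of (z := 0) (cl_eq_zero.2 L.lattice.zero_mem),
      chi_of_not (z := -P), chi_of_not]
    · norm_num
    · rw [cl_sub, cl_neg]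
      intro h
      apply hP2
      rw [← neg_eq_zero, ← h]
      abel
    · rw [cl_neg, neg_ne_zero]
      exact hP0
  have hana : ∀ w, cl L (w - Q) ≠ 0 → AnalyticAt ℂ g w := by
    intro w hw
    have h1 : AnalyticAt ℂ (uu L c) (w - Q) := ana_sub L c (fun h => hw (cl_eq_zero.2 h))
    have h2 : AnalyticAt ℂ (fun z => uu L c (z - Q)) w :=
      h1.comp_of_eq (by fun_prop) rfl
    exact h2.mul analyticAt_const
  have hPQ0 : cl L (P - Q) ≠ 0 := by
    rw [cl_sub, sub_ne_zero]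
    exact hPQ Q hQt
  have hPQ0' : cl L (-P - Q) ≠ 0 := by
    rw [cl_sub, sub_ne_zero]
    exact hPQ' Q hQt
  have hgP : g P ≠ 0 := by
    refine mul_ne_zero (wp_ne L c hc2 hPQ0 ?_) hgc
    rintro (h | h)
    · refine hPQ (Q + c) (hQt.add hct) ?_
      rw [cl_add, ← h, cl_sub]
      abel
    · refine hPQ (Q - c) (hQt.sub hct) ?_
      rw [cl_sub, sub_eq_add_neg, ← h, cl_sub]
      abel
  have hgnP : g (-P) = 1 := mul_inv_cancel₀ hg0
  obtain ⟨ξ, h1, h2, h3, h4'⟩ := move hP [Q, Q + c, Q - c] (by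
    intro R hR
    simp only [List.mem_cons, List.not_mem_nil, or_false] at hR
    rcases hR with rfl | rfl | rfl
    · exact hQt
    · exact hQt.add hct
    · exact hQt.sub hct)
    (A := {z | IsTor L z ∨ cl L z = cl L P ∨ cl L z = - cl L P}) (fun z hz => Or.inl hz)
    [(1, uu L P, g)] (by
    intro s hs
    rw [List.mem_singleton] at hs
    subst hs
    exact ⟨hfe, hge⟩) (by
    intro t ht z hz
    rw [List.mem_singleton] at ht
    subst ht
    have hz' : ¬ (IsTor L z ∨ cl L z = cl L P ∨ cl L z = - cl L P) := hz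
    rw [not_or, not_or] at hz'
    obtain ⟨hz1, hz2, hz3⟩ := hz'
    refine ⟨good_uu hP2 (ne_zero_of_not_tor hz1) hz2 hz3, good_mul (good_trans ?_)
      (good_const hgc z)⟩
    refine good_uu_tor hc2 hct fun h => hz1 ?_
    have := h.add hQt
    rwa [sub_add_cancel] at this) (by
    intro z hz1 hz2 hz3
    rw [tameS_cons, tameS_nil, mul_one, zpow_one]
    by_cases hz : cl L z = cl L (-P)
    · rw [tame_per hfe hge hz, tame_simple hf2 (hana _ hPQ0') (by rw [hgnP]; exact one_ne_zero),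
        hgnP, inv_one]
    · refine tame_of_ordZ_zero ?_ ?_
      · rw [ordZ_uu hP2, chi_of_not hz2, chi_of_not (z := z - P), chi_of_not (z := z + P)]
        · norm_num
        · rw [cl_add]
          intro h
          apply hz
          rw [cl_neg]
          exact eq_neg_of_add_eq_zero_left h
        · rw [cl_sub, sub_ne_zero]
          exact hz1
      · rw [hgo, chi_of_not (z := z - (Q + c)), chi_of_not (z := z - (Q - c)),
          chi_of_not (z := z - Q)]
        · norm_num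
        · rw [cl_sub, sub_ne_zero]
          exact hz3 Q (by simp)
        · rw [cl_sub, sub_ne_zero]
          exact hz3 (Q - c) (by simp)
        · rw [cl_sub, sub_ne_zero]
          exact hz3 (Q + c) (by simp))
  refine ⟨ξ, h1, h2, ?_, h4'⟩
  rw [h3, tameS_cons, tameS_nil, mul_one, zpow_one, tame_simple hf1 (hana _ hPQ0) hgP, norm_inv]
  intro h
  rw [inv_eq_one] at h
  have h4 : ‖g P‖ = ‖uu L c (P - Q)‖ * ‖uu L c (-P - Q)‖⁻¹ := by
    rw [hg, norm_mul, norm_inv]
  rw [h4] at h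
  have h5 : ‖uu L c (P - Q)‖ = ‖uu L c (-P - Q)‖ := by
    have h6 : ‖uu L c (-P - Q)‖ ≠ 0 := norm_ne_zero_iff.2 hg0
    field_simp at h
    exact h
  exact absurd h5 hQ.ne

/-- Residues at two points only. -/
theorem exists_pair {P : ℂ} (hP : cl L P ≠ 0) :
    ∃ ξ : Sym2K, Ell L ξ ∧ (∀ z, cl L z ≠ cl L P → cl L z ≠ 0 → tameS ξ z = 1) ∧
      ‖tameS ξ P‖ ≠ 1 ∧
      Supp {z | IsTor L z ∨ cl L z = cl L P ∨ cl L z = - cl L P} ξ := by
  by_cases ht : IsTor L P
  · obtain ⟨M, f, hM, hf, hdiv, hgood⟩ := exists_hasDiv ht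
    have h2 : (2 : ℂ) ≠ 0 := two_ne_zero
    refine ⟨[(1, f, fun _ => 2)], ?_, ?_, ?_, ?_⟩
    rotate_left 3
    · intro t ht z hz
      rw [List.mem_singleton] at ht
      subst ht
      exact ⟨hgood z fun h => hz (Or.inl h), good_const h2 z⟩
    · intro s hs
      rw [List.mem_singleton] at hs
      subst hs
      exact ⟨hf, isElliptic_const L h2⟩
    · intro z hz1 hz2
      rw [tameS_cons_const h2, tameS_nil, mul_one, hdiv, chi_of_not hz2,
        chi_of_not (by rw [cl_sub, sub_ne_zero]; exact hz1)]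
      simp
    · rw [tameS_cons_const h2, tameS_nil, mul_one, hdiv, chi_of_not hP,
        chi_of (by rw [sub_self]; exact cl_eq_zero.2 L.lattice.zero_mem)]
      rw [sub_zero, mul_one, zpow_neg, zpow_natCast, norm_inv, norm_pow]
      simp only [Complex.norm_ofNat]
      intro h
      rw [inv_eq_one] at h
      have := one_lt_pow₀ (one_lt_two : (1 : ℝ) < 2) hM.ne'
      linarith
  · exact exists_symbol ht

end Pool.Agent.J4.H64.EK
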