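import Pool.Agent.J4.H64.EK.Corr
import Pool.Agent.J4.H64.EK.Res

/-!
# The regulator along loops and its mean value
-/

set_option autoImplicit false

open Filter Topology H4EP MeasureTheory Set

namespace Pool.Agent.J4.H64.EK

/-- The density of the regulator of `{f, g}` in the direction `w`. -/
noncomputable def dens (f g : ℂ → ℂ) (w z : ℂ) : ℝ :=
  Real.log ‖f z‖ * (w * logDeriv g z).im - Real.log ‖g z‖ * (w * logDeriv f z).im

/-- The regulator of `{f, g}` along the segment from `p` to `p + w`. -/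
noncomputable def reg1 (f g : ℂ → ℂ) (p w : ℂ) : ℝ :=
  ∫ s in (0 : ℝ)..1, dens f g w (p + s * w)

/-- The regulator of a sum of symbols along the segment from `p` to `p + w`. -/
noncomputable def reg (ξ : Sym2K) (p w : ℂ) : ℝ :=
  (ξ.map fun t => (t.1 : ℝ) * reg1 t.2.1 t.2.2 p w).sum

/-- `n ξ`. -/
def smulS (n : ℤ) (ξ : Sym2K) : Sym2K := ξ.map fun t => (n * t.1, t.2)

/-- The pullback of `ξ` by `z ↦ - z`. -/
def nuS (ξ : Sym2K) : Sym2K := ξ.map fun t => (t.1, (fun z => t.2.1 (-z)), (fun z => t.2.2 (-z)))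

theorem reg_cons (t : ℤ × (ℂ → ℂ) × (ℂ → ℂ)) (ξ : Sym2K) (p w : ℂ) :
    reg (t :: ξ) p w = t.1 * reg1 t.2.1 t.2.2 p w + reg ξ p w := by
  simp [reg]

theorem reg_append (ξ η : Sym2K) (p w : ℂ) : reg (ξ ++ η) p w = reg ξ p w + reg η p w := by
  simp [reg]

theorem reg_smulS (n : ℤ) (ξ : Sym2K) (p w : ℂ) : reg (smulS n ξ) p w = n * reg ξ p w := by
  induction ξ with
  | nil => simp [reg, smulS]
  | cons t ξ ih =>
    have h1 : smulS n (t :: ξ) = (n * t.1, t.2) :: smulS n ξ := rfl
    rw [h1, reg_cons, reg_cons, ih]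
    push_cast
    ring

theorem tameS_smulS (n : ℤ) (ξ : Sym2K) (z : ℂ) : tameS (smulS n ξ) z = tameS ξ z ^ n := by
  induction ξ with
  | nil => simp [tameS, smulS]
  | cons t ξ ih =>
    have h1 : smulS n (t :: ξ) = (n * t.1, t.2) :: smulS n ξ := rfl
    rw [h1, tameS_cons, tameS_cons, ih, mul_zpow, ← zpow_mul]
    congr 2
    ring

theorem Ell.smulS {L : PeriodPair} {ξ : Sym2K} (h : Ell L ξ) (n : ℤ) : Ell L (smulS n ξ) := by
  intro s hs
  unfold EK.smulS at hs
  rw [List.mem_map] at hs
  obtain ⟨t, ht, rfl⟩ := hs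
  exact h t ht

theorem Supp.smulS {A : Set ℂ} {ξ : Sym2K} (h : Supp A ξ) (n : ℤ) : Supp A (smulS n ξ) := by
  intro s hs
  unfold EK.smulS at hs
  rw [List.mem_map] at hs
  obtain ⟨t, ht, rfl⟩ := hs
  exact h t ht

theorem Supp.mono {A B : Set ℂ} {ξ : Sym2K} (h : Supp A ξ) (hAB : A ⊆ B) : Supp B ξ :=
  fun t ht z hz => h t ht z fun hzA => hz (hAB hzA)

theorem Supp.trS {A B : Set ℂ} {ξ : Sym2K} (h : Supp A ξ) (a : ℂ)
    (hAB : ∀ z, z - a ∈ A → z ∈ B) : Supp B (trS a ξ) := by
  intro s hs z hz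
  unfold EK.trS at hs
  rw [List.mem_map] at hs
  obtain ⟨t, ht, rfl⟩ := hs
  have h1 := h t ht (z - a) fun h => hz (hAB z h)
  exact ⟨good_trans h1.1, good_trans h1.2⟩

/-! ### translations -/

theorem logDeriv_trans (f : ℂ → ℂ) (a z : ℂ) :
    logDeriv (fun w => f (w - a)) z = logDeriv f (z - a) := by
  rw [logDeriv_apply, logDeriv_apply, deriv_comp_sub_const]

theorem dens_trans (f g : ℂ → ℂ) (a w z : ℂ) :
    dens (fun x => f (x - a)) (fun x => g (x - a)) w z = dens f g w (z - a) := by
  unfold dens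
  rw [logDeriv_trans, logDeriv_trans]

theorem reg1_trans (f g : ℂ → ℂ) (a p w : ℂ) :
    reg1 (fun x => f (x - a)) (fun x => g (x - a)) p w = reg1 f g (p - a) w := by
  unfold reg1
  refine intervalIntegral.integral_congr fun s _ => ?_
  rw [dens_trans]
  congr 1
  ring

theorem reg_trS (a : ℂ) (ξ : Sym2K) (p w : ℂ) : reg (trS a ξ) p w = reg ξ (p - a) w := by
  unfold reg trS
  rw [List.map_map]
  congr 1
  refine List.map_congr_left fun t _ => ?_
  simp only [Function.comp]
  rw [reg1_trans]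

/-! ### densities -/

theorem im_eq (w x : ℂ) : (w * x).im = (-Complex.I * w * x).re := by
  simp [Complex.mul_re, Complex.mul_im]

theorem dens_eq (f g : ℂ → ℂ) (w z : ℂ) : dens f g w z =
    Lg f z * Dv (-Complex.I * w) g z - Lg g z * Dv (-Complex.I * w) f z := by
  unfold dens Lg Dv
  rw [im_eq, im_eq]

theorem per_dens {L : PeriodPair} {f g : ℂ → ℂ} (hf : IsElliptic L f) (hg : IsElliptic L g)
    (w : ℂ) : Per L (dens f g w) := by
  intro z l hl
  rw [dens_eq, dens_eq, per_Lg hf z l hl, per_Lg hg z l hl, per_Dv hf _ z l hl,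
    per_Dv hg _ z l hl]

theorem meas_dens {L : PeriodPair} {f g : ℂ → ℂ} (hf : IsElliptic L f) (hg : IsElliptic L g)
    (w : ℂ) : Measurable (dens f g w) := by
  have h1 : dens f g w = fun z => Lg f z * Dv (-Complex.I * w) g z -
      Lg g z * Dv (-Complex.I * w) f z := by
    funext z
    exact dens_eq f g w z
  rw [h1]
  exact ((meas_log hf).mul (meas_der hg _)).sub ((meas_log hg).mul (meas_der hf _))

theorem intg0 {G D : TT → ℝ} (hG : MemLp G 4 muT) (hD : MemLp D (4 / 3) muT) :
    Integrable (fun x => G x * D x) muT := by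
  haveI := holder
  exact hG.integrable_mul hD

theorem integrable_dens {L : PeriodPair} {f g : ℂ → ℂ} (hf : IsElliptic L f)
    (hg : IsElliptic L g) (w : ℂ) : Integrable (lift L (dens f g w)) muT := by
  have h1 : lift L (dens f g w) = fun x => lift L (Lg f) x * lift L (Dv (-Complex.I * w) g) x -
      lift L (Lg g) x * lift L (Dv (-Complex.I * w) f) x := by
    funext x
    exact dens_eq f g w _
  rw [h1]
  exact (intg0 (memLp_Lg hf) (memLp_Dv hg _)).sub (intg0 (memLp_Lg hg) (memLp_Dv hf _))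

theorem continuousAt_dens {f g : ℂ → ℂ} {z : ℂ} (w : ℂ) (hf : z ∈ good f) (hg : z ∈ good g) :
    ContinuousAt (dens f g w) z := by
  have h1 : dens f g w = fun z => Lg f z * Dv (-Complex.I * w) g z -
      Lg g z * Dv (-Complex.I * w) f z := by
    funext z
    exact dens_eq f g w z
  rw [h1]
  exact ((continuousAt_Lg hf).mul (continuousAt_Dv _ hg)).sub
    ((continuousAt_Lg hg).mul (continuousAt_Dv _ hf))

/-! ### Fubini -/

theorem fubini1 {H : TT → ℝ} (hH : Integrable H muT) (mH : Measurable H) (u : ℝ × ℝ) :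
    Integrable (fun x => ∫ s in (0 : ℝ)..1, H (x + tt (s • u))) muT ∧
      ∫ x, (∫ s in (0 : ℝ)..1, H (x + tt (s • u))) ∂muT = ∫ x, H x ∂muT := by
  have h0 : (fun x => ∫ s in (0 : ℝ)..1, H (x + tt (s • u))) =
      fun x => ∫ s in Ioc (0 : ℝ) 1, H (x + tt (s • u)) := by
    funext x
    rw [intervalIntegral.integral_of_le zero_le_one]
  have hcu : Continuous (fun s : ℝ => tt (s • u)) := continuous_tt.comp (by fun_prop)
  have hm : Measurable (Function.uncurry fun (x : TT) (s : ℝ) => H (x + tt (s • u))) := by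
    have h1 : Measurable (fun p : TT × ℝ => p.1 + tt (p.2 • u)) := by
      have : Continuous (fun p : TT × ℝ => p.1 + tt (p.2 • u)) :=
        continuous_fst.add (hcu.comp continuous_snd)
      exact this.measurable
    exact mH.comp h1
  have hi : ∀ s : ℝ, Integrable (fun x => H (x + tt (s • u))) muT := fun s =>
    (mp_trans (tt (s • u))).integrable_comp_of_integrable hH
  have hI : Integrable (Function.uncurry fun (x : TT) (s : ℝ) => H (x + tt (s • u)))
      (muT.prod (volume.restrict (Ioc (0 : ℝ) 1))) := by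
    rw [integrable_prod_iff' hm.aestronglyMeasurable]
    constructor
    · refine Eventually.of_forall fun s => ?_
      have := hi s
      exact this
    · have h5 : (fun y : ℝ => ∫ x, ‖Function.uncurry (fun (x : TT) (s : ℝ) =>
          H (x + tt (s • u))) (x, y)‖ ∂muT) = fun _ : ℝ => ∫ x, ‖H x‖ ∂muT := by
        funext s
        exact integral_trans (fun x => ‖H x‖) (tt (s • u))
      rw [h5]
      exact integrable_const _
  rw [h0]
  refine ⟨hI.integral_prod_left, ?_⟩
  have h6 := integral_integral_swap (μ := muT) (ν := volume.restrict (Ioc (0 : ℝ) 1))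
    (f := fun x s => H (x + tt (s • u))) hI
  rw [h6]
  have h7 : ∀ s : ℝ, ∫ x, H (x + tt (s • u)) ∂muT = ∫ x, H x ∂muT := fun s => integral_trans _ _
  simp only [h7]
  simp

theorem reg1_eq {L : PeriodPair} {f g : ℂ → ℂ} (hf : IsElliptic L f) (hg : IsElliptic L g)
    (u : ℝ × ℝ) (x : TT) : reg1 f g (ee L (rho x)) (ee L u) =
      ∫ s in (0 : ℝ)..1, lift L (dens f g (ee L u)) (x + tt (s • u)) := by
  unfold reg1
  refine intervalIntegral.integral_congr fun s _ => ?_
  rw [lift_add (per_dens hf hg _), ee_smul]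

/-- The mean value of the density. -/
noncomputable def area1 (L : PeriodPair) (f g : ℂ → ℂ) (w : ℂ) : ℝ :=
  ∫ x, lift L (dens f g w) x ∂muT

/-- The mean value of the density. -/
noncomputable def area (L : PeriodPair) (ξ : Sym2K) (w : ℂ) : ℝ :=
  (ξ.map fun t => (t.1 : ℝ) * area1 L t.2.1 t.2.2 w).sum

theorem mean_reg1 {L : PeriodPair} {f g : ℂ → ℂ} (hf : IsElliptic L f) (hg : IsElliptic L g)
    (w : ℂ) : Integrable (fun x => reg1 f g (ee L (rho x)) w) muT ∧
      ∫ x, reg1 f g (ee L (rho x)) w ∂muT = area1 L f g w := by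
  obtain ⟨u, rfl⟩ := ee_surj L w
  have h := fubini1 (integrable_dens hf hg (ee L u)) (meas_lift (meas_dens hf hg _)) u
  simp only [reg1_eq hf hg]
  exact h

theorem mean_reg {L : PeriodPair} {ξ : Sym2K} (hξ : Ell L ξ) (w : ℂ) :
    Integrable (fun x => reg ξ (ee L (rho x)) w) muT ∧
      ∫ x, reg ξ (ee L (rho x)) w ∂muT = area L ξ w := by
  induction ξ with
  | nil => simp [reg, area]
  | cons t ξ ih =>
    obtain ⟨h1, h2⟩ := ih fun s hs => hξ s (List.mem_cons_of_mem _ hs)
    obtain ⟨h3, h4⟩ := mean_reg1 (hξ t List.mem_cons_self).1 (hξ t List.mem_cons_self).2 w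
    simp only [reg_cons]
    refine ⟨(h3.const_mul _).add h1, ?_⟩
    rw [integral_add (h3.const_mul _) h1, h2, integral_const_mul, h4]
    simp [area]

theorem area1_lin {L : PeriodPair} {f g : ℂ → ℂ} (hf : IsElliptic L f) (hg : IsElliptic L g)
    (a b : ℝ) (v w : ℂ) : a * area1 L f g v + b * area1 L f g w = area1 L f g (a * v + b * w) := by
  unfold area1
  rw [← integral_const_mul, ← integral_const_mul, ← integral_add
    ((integrable_dens hf hg v).const_mul _) ((integrable_dens hf hg w).const_mul _)]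
  refine integral_congr_ae (Eventually.of_forall fun x => ?_)
  simp only [lift]
  unfold dens
  have h1 : ∀ y : ℂ, ((a * v + b * w) * y).im = a * (v * y).im + b * (w * y).im := by
    intro y
    have : (a * v + b * w) * y = (a : ℂ) * (v * y) + (b : ℂ) * (w * y) := by ring
    rw [this, Complex.add_im, Complex.im_ofReal_mul, Complex.im_ofReal_mul]
  rw [h1, h1]
  ring

theorem area_lin {L : PeriodPair} {ξ : Sym2K} (hξ : Ell L ξ)
    (a b : ℝ) (v w : ℂ) : a * area L ξ v + b * area L ξ w = area L ξ (a * v + b * w) := by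
  induction ξ with
  | nil => simp [area]
  | cons t ξ ih =>
    have h1 := ih fun s hs => hξ s (List.mem_cons_of_mem _ hs)
    have h2 := area1_lin (hξ t List.mem_cons_self).1 (hξ t List.mem_cons_self).2 a b v w
    have h3 : ∀ x, area L (t :: ξ) x = t.1 * area1 L t.2.1 t.2.2 x + area L ξ x := by
      intro x
      simp [area]
    rw [h3, h3, h3, ← h1, ← h2]
    ring

/-! ### continuity in the base point -/

theorem cont_reg1 {L : PeriodPair} {f g : ℂ → ℂ} (hf : IsElliptic L f) (hg : IsElliptic L g)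
    {p w : ℂ} (h : ∀ s : ℝ, p + s * w ∈ good f ∧ p + s * w ∈ good g) :
    ContinuousAt (fun q => reg1 f g q w) p := by
  have hc : ∀ s : ℝ, ContinuousAt (fun x : ℂ × ℝ => dens f g w (x.1 + x.2 * w)) (p, s) := by
    intro s
    exact ContinuousAt.comp (f := fun x : ℂ × ℝ => x.1 + (x.2 : ℂ) * w)
      (continuousAt_dens w (h s).1 (h s).2) (by fun_prop)
  have hc1 : Continuous (fun s : ℝ => dens f g w (p + s * w)) := by
    rw [continuous_iff_continuousAt]
    intro s
    exact ContinuousAt.comp (f := fun s : ℝ => p + (s : ℂ) * w)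
      (continuousAt_dens w (h s).1 (h s).2) (by fun_prop)
  obtain ⟨M, hM⟩ := (isCompact_Icc (a := (0 : ℝ)) (b := 1)).exists_bound_of_continuousOn
    hc1.continuousOn
  have hev : ∀ᶠ q in 𝓝 p, ∀ s ∈ Icc (0 : ℝ) 1, ‖dens f g w (q + s * w)‖ ≤ M + 1 := by
    refine isCompact_Icc.eventually_forall_of_forall_eventually fun s hs => ?_
    have h1 := (hc s).norm
    have h2 : ‖dens f g w (p + s * w)‖ < M + 1 := by
      have := hM s hs
      linarith
    exact (h1.eventually_lt continuousAt_const h2).mono fun x hx => hx.le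
  unfold reg1
  refine intervalIntegral.continuousAt_of_dominated_interval (bound := fun _ => M + 1) ?_ ?_ ?_ ?_
  · refine Eventually.of_forall fun q => ?_
    have h1 : Measurable (fun s : ℝ => dens f g w (q + s * w)) :=
      (meas_dens hf hg w).comp (by fun_prop)
    exact h1.aestronglyMeasurable
  · filter_upwards [hev] with q hq
    refine Eventually.of_forall fun s hs => ?_
    rw [uIoc_of_le zero_le_one] at hs
    exact hq s ⟨hs.1.le, hs.2⟩
  · exact intervalIntegrable_const
  · refine Eventually.of_forall fun s _ => ?_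
    exact ContinuousAt.comp (f := fun x : ℂ => x + (s : ℂ) * w)
      (continuousAt_dens w (h s).1 (h s).2) (by fun_prop)

theorem cont_reg {L : PeriodPair} {A : Set ℂ} {ξ : Sym2K} (hξ : Ell L ξ) (hs : Supp A ξ)
    {p w : ℂ} (h : ∀ s : ℝ, p + s * w ∉ A) : ContinuousAt (fun q => reg ξ q w) p := by
  induction ξ with
  | nil =>
    simp only [reg, List.map_nil, List.sum_nil]
    exact continuousAt_const
  | cons t ξ ih =>
    simp only [reg_cons]
    refine ContinuousAt.add (continuousAt_const.mul ?_)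
      (ih (fun s hs => hξ s (List.mem_cons_of_mem _ hs))
        (fun s hs' => hs s (List.mem_cons_of_mem _ hs')))
    exact cont_reg1 (hξ t List.mem_cons_self).1 (hξ t List.mem_cons_self).2
      fun s => hs t List.mem_cons_self _ (h s)

end Pool.Agent.J4.H64.EK
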