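import Pool.Agent.J4.H64.EK.Mea

/-!
# Periodic functions on the torus
-/

set_option autoImplicit false

open Filter Topology H4EP MeasureTheory Set

namespace Pool.Agent.J4.H64.EK

/-- The torus. -/
abbrev TT : Type := UnitAddCircle × UnitAddCircle

/-- The Haar measure of the torus. -/
noncomputable abbrev muT : Measure TT := (volume : Measure UnitAddCircle).prod volume

/-- Representatives in `(0, 1]`. -/
noncomputable def r1 (x : UnitAddCircle) : ℝ := (AddCircle.equivIoc 1 0 x : ℝ)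

theorem r1_mem (x : UnitAddCircle) : r1 x ∈ Ioc (0 : ℝ) 1 := by
  have h := (AddCircle.equivIoc (1 : ℝ) 0 x).2
  have h2 : (0 : ℝ) + 1 = 1 := zero_add 1
  exact ⟨h.1, h2 ▸ h.2⟩

theorem coe_r1 (x : UnitAddCircle) : ((r1 x : ℝ) : UnitAddCircle) = x :=
  AddCircle.coe_equivIoc

theorem mp_r1 : MeasurePreserving r1 (volume : Measure UnitAddCircle)
    (volume.restrict (Ioc (0 : ℝ) 1)) := by
  have h1 := AddCircle.measurePreserving_equivIoc (1 : ℝ) (a := 0)
  have h2 : MeasurePreserving (Subtype.val : Ioc (0 : ℝ) (0 + 1) → ℝ)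
      (Measure.comap Subtype.val volume) (volume.restrict (Ioc (0 : ℝ) (0 + 1))) :=
    measurePreserving_subtype_coe measurableSet_Ioc
  have h3 : MeasurePreserving r1 (volume : Measure UnitAddCircle)
      (volume.restrict (Ioc (0 : ℝ) (0 + 1))) := h2.comp h1
  have h4 : (0 : ℝ) + 1 = 1 := zero_add 1
  rw [h4] at h3
  exact h3

/-- Coordinates in the square. -/
noncomputable def rho (x : TT) : ℝ × ℝ := (r1 x.1, r1 x.2)

theorem mp_rho : MeasurePreserving rho muT (volume.restrict sq) := by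
  have h1 := mp_r1.prod mp_r1
  rw [Measure.prod_restrict] at h1
  exact h1

/-- The class of a point. -/
noncomputable def tt (a : ℝ × ℝ) : TT := ((a.1 : UnitAddCircle), (a.2 : UnitAddCircle))

theorem tt_rho (x : TT) : tt (rho x) = x := Prod.ext (coe_r1 x.1) (coe_r1 x.2)

theorem tt_add (a b : ℝ × ℝ) : tt (a + b) = tt a + tt b := rfl

theorem continuous_tt : Continuous tt :=
  ((AddCircle.continuous_mk' 1).comp continuous_fst).prodMk
    ((AddCircle.continuous_mk' 1).comp continuous_snd)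

/-- `F` is a function on `ℂ / Λ`. -/
def Per (L : PeriodPair) (F : ℂ → ℝ) : Prop := ∀ z, ∀ l ∈ L.lattice, F (z + l) = F z

theorem Per.congr {L : PeriodPair} {F : ℂ → ℝ} (hF : Per L F) {z w : ℂ}
    (h : cl L z = cl L w) : F z = F w := by
  have h1 := hF w (z - w) (cl_eq.1 h)
  rwa [add_sub_cancel] at h1

theorem cl_ee_of {L : PeriodPair} {a b : ℝ × ℝ} (h : tt a = tt b) :
    cl L (ee L a) = cl L (ee L b) := by
  have h1 : ((a.1 : ℝ) : UnitAddCircle) = (b.1 : ℝ) := congrArg Prod.fst h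
  have h2 : ((a.2 : ℝ) : UnitAddCircle) = (b.2 : ℝ) := congrArg Prod.snd h
  rw [← sub_eq_zero, ← AddCircle.coe_sub, AddCircle.coe_eq_zero_iff] at h1 h2
  obtain ⟨m, hm⟩ := h1
  obtain ⟨n, hn⟩ := h2
  rw [cl_eq, PeriodPair.mem_lattice]
  refine ⟨m, n, ?_⟩
  simp only [zsmul_eq_mul, mul_one] at hm hn
  rw [← ee_sub]
  unfold ee
  simp only [Prod.fst_sub, Prod.snd_sub, ← hm, ← hn]
  push_cast
  ring

/-- The function on the torus given by a periodic function. -/
noncomputable def lift (L : PeriodPair) (F : ℂ → ℝ) (x : TT) : ℝ := F (ee L (rho x))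

theorem lift_tt {L : PeriodPair} {F : ℂ → ℝ} (hF : Per L F) (a : ℝ × ℝ) :
    lift L F (tt a) = F (ee L a) :=
  hF.congr (cl_ee_of (tt_rho (tt a)))

theorem lift_add {L : PeriodPair} {F : ℂ → ℝ} (hF : Per L F) (x : TT) (a : ℝ × ℝ) :
    lift L F (x + tt a) = F (ee L (rho x) + ee L a) := by
  have h1 : x + tt a = tt (rho x + a) := by
    rw [tt_add, tt_rho]
  rw [h1, lift_tt hF, ee_add]

theorem meas_rho : Measurable rho := mp_rho.measurable

theorem meas_lift {L : PeriodPair} {F : ℂ → ℝ} (hF : Measurable F) : Measurable (lift L F) :=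
  hF.comp ((continuous_ee L).measurable.comp meas_rho)

theorem memLp_lift (L : PeriodPair) {F : ℂ → ℝ} (hF : Measurable F) {p : ENNReal} (hp0 : p ≠ 0)
    (hp : p ≠ ⊤) (hm : Mild p.toReal F) : MemLp (lift L F) p muT :=
  (memLp_sq L hF hp0 hp hm).comp_measurePreserving mp_rho

theorem integral_lift (L : PeriodPair) {F : ℂ → ℝ} (hF : Measurable F) :
    ∫ x, lift L F x ∂muT = ∫ x in sq, F (ee L x) := by
  have h1 : AEStronglyMeasurable (fun x : ℝ × ℝ => F (ee L x)) (Measure.map rho muT) :=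
    (hF.comp (continuous_ee L).measurable).aestronglyMeasurable
  rw [← mp_rho.map_eq, integral_map meas_rho.aemeasurable h1]
  rfl

theorem ae_rho {P : ℝ × ℝ → Prop} (h : ∀ᵐ x : ℝ × ℝ, P x) : ∀ᵐ x ∂muT, P (rho x) :=
  mp_rho.quasiMeasurePreserving.ae (ae_restrict_of_ae h)

instance : Measure.IsAddHaarMeasure muT := inferInstance

theorem integral_trans (G : TT → ℝ) (a : TT) : ∫ x, G (x + a) ∂muT = ∫ x, G x ∂muT :=
  integral_add_right_eq_self G a

theorem mp_trans (a : TT) : MeasurePreserving (fun x : TT => x + a) muT muT :=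
  measurePreserving_add_right muT a

end Pool.Agent.J4.H64.EK
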